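import Pool.Agent.Helper8_Fine.Pdk

/-!
Squad AEU, Part III, module PSG: the heat kernel `pD` of an open set satisfies the
Chapman-Kolmogorov equation for all times.
-/

namespace Pool.Agent.AEU.H44

open MeasureTheory Complex Filter Topology ProbabilityTheory Pool.Agent.H16Iso Pool.Agent.H62T
open Pool.Agent.H16F (pD)
open scoped ENNReal NNReal

/-! ### The heat kernel of the plane -/

theorem G_nonneg {s : ℝ} (hs : 0 < s) (z : ℂ) : 0 ≤ G s z := H41.G_nonneg hs z

theorem G_mul2 {s r : ℝ} (hs : 0 < s) (hr : 0 < r) (x y z : ℂ) :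
    G s (x - z) * G r (z - y)
      = Real.exp (-(‖x - y‖ ^ 2) / (4 * (s + r))) / ((4 * Real.pi * s) * (4 * Real.pi * r))
        * Real.exp (-((s + r) / (4 * s * r))
          * ‖z - ((r / (s + r) : ℝ) * x + (s / (s + r) : ℝ) * y)‖ ^ 2) := by
  unfold G
  have h : ‖x - z‖ ^ 2 / (4 * s) + ‖z - y‖ ^ 2 / (4 * r) = ‖x - y‖ ^ 2 / (4 * (s + r))
      + (s + r) / (4 * s * r) * ‖z - ((r / (s + r) : ℝ) * x + (s / (s + r) : ℝ) * y)‖ ^ 2 := by
    have hsr : s + r ≠ 0 := by positivity
    simp only [← Complex.normSq_eq_norm_sq, Complex.normSq_apply, Complex.sub_re, Complex.sub_im,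
      Complex.add_re, Complex.add_im, Complex.re_ofReal_mul, Complex.im_ofReal_mul]
    field_simp
    ring
  rw [div_mul_div_comm, ← Real.exp_add, div_mul_eq_mul_div, ← Real.exp_add]
  congr 2
  have e1 : -(‖x - z‖ ^ 2) / (4 * s) + -(‖z - y‖ ^ 2) / (4 * r)
      = -(‖x - z‖ ^ 2 / (4 * s) + ‖z - y‖ ^ 2 / (4 * r)) := by ring
  rw [e1, h]
  ring

theorem G_int2 {s r : ℝ} (hs : 0 < s) (hr : 0 < r) (x y : ℂ) :
    Integrable fun z : ℂ => G s (x - z) * G r (z - y) := by
  have h : (fun z : ℂ => G s (x - z) * G r (z - y)) = fun z : ℂ =>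
      Real.exp (-(‖x - y‖ ^ 2) / (4 * (s + r))) / ((4 * Real.pi * s) * (4 * Real.pi * r))
        * Real.exp (-((s + r) / (4 * s * r))
          * ‖z - ((r / (s + r) : ℝ) * x + (s / (s + r) : ℝ) * y)‖ ^ 2) := by
    ext z
    exact G_mul2 hs hr x y z
  rw [h]
  exact (H41.integrable_gauss _ (by positivity) _).const_mul _

theorem G_ck {s r : ℝ} (hs : 0 < s) (hr : 0 < r) (x y : ℂ) :
    ∫ z : ℂ, G s (x - z) * G r (z - y) = G (s + r) (x - y) := by
  have h : (fun z : ℂ => G s (x - z) * G r (z - y)) = fun z : ℂ =>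
      Real.exp (-(‖x - y‖ ^ 2) / (4 * (s + r))) / ((4 * Real.pi * s) * (4 * Real.pi * r))
        * Real.exp (-((s + r) / (4 * s * r))
          * ‖z - ((r / (s + r) : ℝ) * x + (s / (s + r) : ℝ) * y)‖ ^ 2) := by
    ext z
    exact G_mul2 hs hr x y z
  rw [h, integral_const_mul, H41.integral_gauss _ (by positivity) _]
  unfold G
  have := Real.pi_pos
  field_simp

theorem G_le {s : ℝ} (hs : 0 < s) (z : ℂ) : G s z ≤ (4 * Real.pi * s)⁻¹ := by
  unfold G
  rw [div_eq_mul_inv]
  refine mul_le_of_le_one_left (by positivity) ?_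
  apply Real.exp_le_one_iff.2
  have : 0 ≤ ‖z‖ ^ 2 / (4 * s) := by positivity
  have e : -(‖z‖ ^ 2) / (4 * s) = -(‖z‖ ^ 2 / (4 * s)) := by ring
  rw [e]
  linarith

theorem G_meas3 : Measurable fun p : ℝ × ℂ × ℂ => G p.1 (p.2.1 - p.2.2) := by
  unfold G
  fun_prop

/-! ### Skeleton kernels -/

/-- indicator function of `D` -/
noncomputable def iD (D : Set ℂ) (x : ℂ) : ℝ := D.indicator (fun _ => (1 : ℝ)) x

theorem iD_nonneg (D : Set ℂ) (x : ℂ) : 0 ≤ iD D x :=
  Set.indicator_nonneg (fun _ _ => zero_le_one) x

theorem iD_le (D : Set ℂ) (x : ℂ) : iD D x ≤ 1 :=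
  Set.indicator_le_self' (fun _ _ => zero_le_one) x

theorem iD_sq (D : Set ℂ) (x : ℂ) : iD D x * iD D x = iD D x := by
  unfold iD
  by_cases h : x ∈ D <;> simp [h]

theorem iD_meas {D : Set ℂ} (hD : MeasurableSet D) : Measurable (iD D) :=
  measurable_const.indicator hD

/-- kernel with the constraint at the times in the list `L`, started at time `a`, at time `b` -/
noncomputable def SK (D : Set ℂ) : ℝ → List ℝ → ℝ → ℂ → ℂ → ℝ
  | a, [], b, x, y => iD D x * iD D y * G (b - a) (x - y)
  | a, s :: L, b, x, y => ∫ z, iD D x * G (s - a) (x - z) * SK D s L b z y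

/-- increasing lists of times between `a` and `b` -/
def Good : ℝ → List ℝ → ℝ → Prop
  | a, [], b => a < b
  | a, s :: L, b => a < s ∧ Good s L b

theorem Good.lt {a : ℝ} {L : List ℝ} {b : ℝ} (h : Good a L b) : a < b := by
  induction L generalizing a with
  | nil => exact h
  | cons s L ih => exact h.1.trans (ih h.2)

theorem Good.shift {a : ℝ} {L : List ℝ} {b : ℝ} (h : Good a L b) (c : ℝ) :
    Good (a + c) (L.map (· + c)) (b + c) := by
  induction L generalizing a with
  | nil =>
    have h' : a < b := h
    show a + c < b + c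
    linarith
  | cons s L ih => exact ⟨by simpa using h.1, ih h.2⟩

theorem Good.append {a : ℝ} {L : List ℝ} {c : ℝ} {L' : List ℝ} {b : ℝ} (h : Good a L c)
    (h' : Good c L' b) : Good a (L ++ c :: L') b := by
  induction L generalizing a with
  | nil => exact ⟨h, h'⟩
  | cons s L ih => exact ⟨h.1, ih h.2⟩

theorem Good.mem {a : ℝ} {L : List ℝ} {b : ℝ} (h : Good a L b) {s : ℝ} (hs : s ∈ L) :
    a < s ∧ s < b := by
  induction L generalizing a with
  | nil => simp at hs
  | cons r L ih =>
    rcases List.mem_cons.mp hs with rfl | hs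
    · exact ⟨h.1, h.2.lt⟩
    · exact ⟨h.1.trans (ih h.2 hs).1, (ih h.2 hs).2⟩

variable {D : Set ℂ}

/-- basic properties -/
theorem sk_basic (hD : MeasurableSet D) (L : List ℝ) : ∀ a b : ℝ, Good a L b →
    Measurable (Function.uncurry (SK D a L b)) ∧
    (∀ x y, 0 ≤ SK D a L b x y ∧ SK D a L b x y ≤ G (b - a) (x - y)) ∧
    (∀ x y, iD D x * SK D a L b x y = SK D a L b x y) ∧
    (∀ x y, SK D a L b x y * iD D y = SK D a L b x y) := by
  induction L with
  | nil =>
    intro a b hab
    have hab' : a < b := hab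
    refine ⟨?_, fun x y => ⟨?_, ?_⟩, fun x y => ?_, fun x y => ?_⟩
    · have h1 : Measurable fun p : ℂ × ℂ => G (b - a) (p.1 - p.2) :=
        (H41.G_cont _).measurable.comp (measurable_fst.sub measurable_snd)
      exact (((iD_meas hD).comp measurable_fst).mul ((iD_meas hD).comp measurable_snd)).mul h1
    · exact mul_nonneg (mul_nonneg (iD_nonneg D x) (iD_nonneg D y)) (G_nonneg (by linarith) _)
    · have := G_nonneg (show 0 < b - a by linarith) (x - y)
      have h1 : iD D x * iD D y ≤ 1 := mul_le_one₀ (iD_le D x) (iD_nonneg D y) (iD_le D y)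
      calc iD D x * iD D y * G (b - a) (x - y) ≤ 1 * G (b - a) (x - y) :=
            mul_le_mul_of_nonneg_right h1 this
        _ = _ := one_mul _
    · show iD D x * (iD D x * iD D y * G (b - a) (x - y)) = iD D x * iD D y * G (b - a) (x - y)
      rw [← mul_assoc, ← mul_assoc, iD_sq]
    · show iD D x * iD D y * G (b - a) (x - y) * iD D y = iD D x * iD D y * G (b - a) (x - y)
      rw [mul_right_comm, mul_assoc (iD D x), iD_sq]
  | cons s L ih =>
    intro a b hab
    obtain ⟨h1, h2⟩ := hab
    obtain ⟨im, ib, il, ir⟩ := ih s b h2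
    have hsb := h2.lt
    have hsa : 0 < s - a := by linarith
    have hbs : 0 < b - s := by linarith
    have hint : ∀ x y, Integrable fun z => iD D x * G (s - a) (x - z) * SK D s L b z y := by
      intro x y
      refine (G_int2 hsa hbs x y).mono' ?_ (Eventually.of_forall fun z => ?_)
      · exact ((measurable_const.mul ((H41.G_cont _).measurable.comp
          (measurable_const.sub measurable_id))).mul
          (im.comp measurable_prodMk_right)).aestronglyMeasurable
      · have e1 := G_nonneg hsa (x - z)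
        have e2 := ib z y
        rw [Real.norm_of_nonneg (mul_nonneg (mul_nonneg (iD_nonneg D x) e1) e2.1)]
        refine mul_le_mul ?_ e2.2 e2.1 e1
        calc iD D x * G (s - a) (x - z) ≤ 1 * G (s - a) (x - z) :=
            mul_le_mul_of_nonneg_right (iD_le D x) e1
          _ = _ := one_mul _
    refine ⟨?_, fun x y => ⟨?_, ?_⟩, fun x y => ?_, fun x y => ?_⟩
    · have hmeas : Measurable fun p : (ℂ × ℂ) × ℂ =>
          iD D p.1.1 * G (s - a) (p.1.1 - p.2) * SK D s L b p.2 p.1.2 := by
        have e1 : Measurable fun p : (ℂ × ℂ) × ℂ => iD D p.1.1 :=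
          (iD_meas hD).comp (measurable_fst.comp measurable_fst)
        have e2 : Measurable fun p : (ℂ × ℂ) × ℂ => G (s - a) (p.1.1 - p.2) :=
          (H41.G_cont _).measurable.comp
            ((measurable_fst.comp measurable_fst).sub measurable_snd)
        have e3 : Measurable fun p : (ℂ × ℂ) × ℂ => SK D s L b p.2 p.1.2 :=
          im.comp (measurable_snd.prodMk (measurable_snd.comp measurable_fst))
        exact (e1.mul e2).mul e3
      exact (hmeas.stronglyMeasurable.integral_prod_right' (ν := volume)).measurable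
    · exact integral_nonneg fun z => mul_nonneg (mul_nonneg (iD_nonneg D x) (G_nonneg hsa _))
        (ib z y).1
    · show ∫ z, iD D x * G (s - a) (x - z) * SK D s L b z y ≤ _
      have e : b - a = (s - a) + (b - s) := by ring
      rw [e, ← G_ck hsa hbs x y]
      refine integral_mono (hint x y) (G_int2 hsa hbs x y) fun z => ?_
      have e1 := G_nonneg hsa (x - z)
      have e2 := ib z y
      refine mul_le_mul ?_ e2.2 e2.1 e1
      calc iD D x * G (s - a) (x - z) ≤ 1 * G (s - a) (x - z) :=
          mul_le_mul_of_nonneg_right (iD_le D x) e1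
        _ = _ := one_mul _
    · show iD D x * ∫ z, iD D x * G (s - a) (x - z) * SK D s L b z y = _
      rw [← integral_const_mul]
      refine integral_congr_ae (Eventually.of_forall fun z => ?_)
      show iD D x * (iD D x * G (s - a) (x - z) * SK D s L b z y)
        = iD D x * G (s - a) (x - z) * SK D s L b z y
      rw [← mul_assoc, ← mul_assoc, iD_sq]
    · show (∫ z, iD D x * G (s - a) (x - z) * SK D s L b z y) * iD D y = _
      rw [← integral_mul_const]
      refine integral_congr_ae (Eventually.of_forall fun z => ?_)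
      show iD D x * G (s - a) (x - z) * SK D s L b z y * iD D y
        = iD D x * G (s - a) (x - z) * SK D s L b z y
      rw [mul_assoc, ir]

theorem sk_meas_l (hD : MeasurableSet D) {L : List ℝ} {a b : ℝ} (h : Good a L b) (y : ℂ) :
    Measurable fun x => SK D a L b x y :=
  (sk_basic hD L a b h).1.comp measurable_prodMk_right

theorem sk_meas_r (hD : MeasurableSet D) {L : List ℝ} {a b : ℝ} (h : Good a L b) (x : ℂ) :
    Measurable fun y => SK D a L b x y :=
  (sk_basic hD L a b h).1.comp measurable_prodMk_left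

theorem sk_int2 (hD : MeasurableSet D) {L L' : List ℝ} {a c b : ℝ} (h : Good a L c)
    (h' : Good c L' b) (x y : ℂ) :
    Integrable fun z => SK D a L c x z * SK D c L' b z y := by
  have e1 := h.lt
  have e2 := h'.lt
  refine (G_int2 (show 0 < c - a by linarith) (show 0 < b - c by linarith) x y).mono' ?_
    (Eventually.of_forall fun z => ?_)
  · exact ((sk_meas_r hD h x).mul (sk_meas_l hD h' y)).aestronglyMeasurable
  · have f1 := (sk_basic hD L a c h).2.1 x z
    have f2 := (sk_basic hD L' c b h').2.1 z y
    rw [Real.norm_of_nonneg (mul_nonneg f1.1 f2.1)]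
    exact mul_le_mul f1.2 f2.2 f2.1 (f1.1.trans f1.2)

/-- three kernels can be integrated in any order -/
theorem fub {f : ℂ → ℝ} {g : ℂ → ℂ → ℝ} {h : ℂ → ℝ} {r s t : ℝ} (hr : 0 < r) (hs : 0 < s)
    (ht : 0 < t) (x y : ℂ) (hf : Measurable f) (hg : Measurable (Function.uncurry g))
    (hh : Measurable h) (f1 : ∀ w, 0 ≤ f w ∧ f w ≤ G r (x - w))
    (g1 : ∀ w z, 0 ≤ g w z ∧ g w z ≤ G s (w - z)) (h1 : ∀ z, 0 ≤ h z ∧ h z ≤ G t (z - y)) :
    ∫ z, (∫ w, f w * g w z) * h z = ∫ w, f w * ∫ z, g w z * h z := by
  have e1 : ∀ z, (∫ w, f w * g w z) * h z = ∫ w, f w * g w z * h z := fun z =>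
    (integral_mul_const _ _).symm
  have e2 : ∀ w, f w * ∫ z, g w z * h z = ∫ z, f w * g w z * h z := by
    intro w
    rw [← integral_const_mul]
    simp only [mul_assoc]
  simp only [e1, e2]
  have hm : Measurable fun p : ℂ × ℂ => f p.2 * g p.2 p.1 * h p.1 :=
    ((hf.comp measurable_snd).mul (hg.comp (measurable_snd.prodMk measurable_fst))).mul
      (hh.comp measurable_fst)
  have hnn : ∀ w z, 0 ≤ f w * g w z * h z := fun w z =>
    mul_nonneg (mul_nonneg (f1 w).1 (g1 w z).1) (h1 z).1
  have hi1 : ∀ z, Integrable fun w => f w * g w z * h z := by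
    intro z
    have : Integrable fun w => G r (x - w) * G s (w - z) * h z := (G_int2 hr hs x z).mul_const _
    refine this.mono' (hm.comp measurable_prodMk_left).aestronglyMeasurable
      (Eventually.of_forall fun w => ?_)
    rw [Real.norm_of_nonneg (hnn w z)]
    exact mul_le_mul_of_nonneg_right (mul_le_mul (f1 w).2 (g1 w z).2 (g1 w z).1
      (G_nonneg hr _)) (h1 z).1
  have hint : Integrable (fun p : ℂ × ℂ => f p.2 * g p.2 p.1 * h p.1)
      (volume.prod volume) := by
    rw [integrable_prod_iff hm.aestronglyMeasurable]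
    refine ⟨Eventually.of_forall fun z => hi1 z, ?_⟩
    have : Integrable fun z => G (r + s) (x - z) * G t (z - y) :=
      G_int2 (by positivity) ht x y
    refine this.mono' ?_ (Eventually.of_forall fun z => ?_)
    · exact (hm.norm.stronglyMeasurable.integral_prod_right'
        (ν := volume)).aestronglyMeasurable
    · have e3 : ∫ w, ‖f w * g w z * h z‖ = ∫ w, f w * g w z * h z :=
        integral_congr_ae (Eventually.of_forall fun w => Real.norm_of_nonneg (hnn w z))
      show ‖∫ w, ‖f w * g w z * h z‖‖ ≤ _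
      rw [e3, Real.norm_of_nonneg (integral_nonneg fun w => hnn w z), ← e1 z]
      refine mul_le_mul ?_ (h1 z).2 (h1 z).1 (G_nonneg (by positivity) _)
      rw [← G_ck hr hs x z]
      refine integral_mono_of_nonneg (Eventually.of_forall fun w =>
        mul_nonneg (f1 w).1 (g1 w z).1) (G_int2 hr hs x z) (Eventually.of_forall fun w => ?_)
      exact mul_le_mul (f1 w).2 (g1 w z).2 (g1 w z).1 (G_nonneg hr _)
  exact integral_integral_swap (f := fun z w => f w * g w z * h z) hint

/-- concatenation -/
theorem sk_append (hD : MeasurableSet D) (L L' : List ℝ) : ∀ a c b : ℝ, Good a L c →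
    Good c L' b → ∀ x y, SK D a (L ++ c :: L') b x y = ∫ z, SK D a L c x z * SK D c L' b z y := by
  induction L with
  | nil =>
    intro a c b h h' x y
    show ∫ z, iD D x * G (c - a) (x - z) * SK D c L' b z y
      = ∫ z, iD D x * iD D z * G (c - a) (x - z) * SK D c L' b z y
    refine integral_congr_ae (Eventually.of_forall fun z => ?_)
    have := (sk_basic hD L' c b h').2.2.1 z y
    show iD D x * G (c - a) (x - z) * SK D c L' b z y
      = iD D x * iD D z * G (c - a) (x - z) * SK D c L' b z y
    rw [← this]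
    have h2 := iD_sq D z
    linear_combination (-(iD D x * G (c - a) (x - z) * SK D c L' b z y)) * h2
  | cons s L ih =>
    intro a c b h h' x y
    have hsc := h.2.lt
    have hcb := h'.lt
    show ∫ w, iD D x * G (s - a) (x - w) * SK D s (L ++ c :: L') b w y
      = ∫ z, (∫ w, iD D x * G (s - a) (x - w) * SK D s L c w z) * SK D c L' b z y
    have e : ∀ w, SK D s (L ++ c :: L') b w y = ∫ z, SK D s L c w z * SK D c L' b z y :=
      fun w => ih s c b h.2 h' w y
    simp only [e]
    symm
    apply fub (show 0 < s - a by linarith [h.1]) (show 0 < c - s by linarith)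
      (show 0 < b - c by linarith) x y
    · exact measurable_const.mul ((H41.G_cont _).measurable.comp
        (measurable_const.sub measurable_id))
    · exact (sk_basic hD L s c h.2).1
    · exact sk_meas_l hD h' y
    · intro w
      have e1 := G_nonneg (show 0 < s - a by linarith [h.1]) (x - w)
      refine ⟨mul_nonneg (iD_nonneg D x) e1, ?_⟩
      calc iD D x * G (s - a) (x - w) ≤ 1 * G (s - a) (x - w) :=
          mul_le_mul_of_nonneg_right (iD_le D x) e1
        _ = _ := one_mul _
    · intro w z
      exact (sk_basic hD L s c h.2).2.1 w z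
    · intro z
      exact (sk_basic hD L' c b h').2.1 z y

/-- inserting a time decreases the kernel -/
theorem sk_split (hD : MeasurableSet D) (L : List ℝ) : ∀ a c b : ℝ, Good a L b → a < c → c < b →
    ∃ L₁ L₂, Good a L₁ c ∧ Good c L₂ b ∧ (∀ s ∈ L₁, s ∈ L) ∧ (∀ s ∈ L₂, s ∈ L) ∧
      ∀ x y, ∫ z, SK D a L₁ c x z * SK D c L₂ b z y ≤ SK D a L b x y := by
  induction L with
  | nil =>
    intro a c b h hac hcb
    refine ⟨[], [], hac, hcb, by simp, by simp, fun x y => ?_⟩
    show _ ≤ iD D x * iD D y * G (b - a) (x - y)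
    have e : b - a = (c - a) + (b - c) := by ring
    rw [e, ← G_ck (by linarith) (by linarith) x y, ← integral_const_mul]
    refine integral_mono (sk_int2 hD (L := []) (L' := []) hac hcb x y)
      ((G_int2 (by linarith) (by linarith) x y).const_mul _) fun z => ?_
    show iD D x * iD D z * G (c - a) (x - z) * (iD D z * iD D y * G (b - c) (z - y))
      ≤ iD D x * iD D y * (G (c - a) (x - z) * G (b - c) (z - y))
    have h1 := iD_sq D z
    have h2 : iD D x * iD D z * G (c - a) (x - z) * (iD D z * iD D y * G (b - c) (z - y))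
      = iD D z * (iD D x * iD D y * (G (c - a) (x - z) * G (b - c) (z - y))) := by
      linear_combination (iD D x * iD D y * (G (c - a) (x - z) * G (b - c) (z - y))) * h1
    rw [h2]
    have h3 : 0 ≤ iD D x * iD D y * (G (c - a) (x - z) * G (b - c) (z - y)) :=
      mul_nonneg (mul_nonneg (iD_nonneg D x) (iD_nonneg D y))
        (mul_nonneg (G_nonneg (by linarith) _) (G_nonneg (by linarith) _))
    calc _ ≤ 1 * (iD D x * iD D y * (G (c - a) (x - z) * G (b - c) (z - y))) :=
        mul_le_mul_of_nonneg_right (iD_le D z) h3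
      _ = _ := one_mul _
  | cons s L ih =>
    intro a c b h hac hcb
    have hsb := h.2.lt
    rcases lt_trichotomy s c with hsc | hsc | hsc
    · obtain ⟨L₁, L₂, g1, g2, m1, m2, hle⟩ := ih s c b h.2 hsc hcb
      refine ⟨s :: L₁, L₂, ⟨h.1, g1⟩, g2, ?_, fun r hr => List.mem_cons_of_mem _ (m2 r hr),
        fun x y => ?_⟩
      · intro r hr
        rcases List.mem_cons.mp hr with rfl | hr
        · exact List.mem_cons_self
        · exact List.mem_cons_of_mem _ (m1 r hr)
      · show ∫ z, (∫ w, iD D x * G (s - a) (x - w) * SK D s L₁ c w z) * SK D c L₂ b z y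
          ≤ ∫ w, iD D x * G (s - a) (x - w) * SK D s L b w y
        have hf : ∀ w, 0 ≤ iD D x * G (s - a) (x - w) ∧
            iD D x * G (s - a) (x - w) ≤ G (s - a) (x - w) := by
          intro w
          have e1 := G_nonneg (show 0 < s - a by linarith [h.1]) (x - w)
          refine ⟨mul_nonneg (iD_nonneg D x) e1, ?_⟩
          calc iD D x * G (s - a) (x - w) ≤ 1 * G (s - a) (x - w) :=
              mul_le_mul_of_nonneg_right (iD_le D x) e1
            _ = _ := one_mul _
        rw [fub (f := fun w => iD D x * G (s - a) (x - w)) (g := fun w z => SK D s L₁ c w z)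
          (h := fun z => SK D c L₂ b z y) (show 0 < s - a by linarith [h.1])
          (show 0 < c - s by linarith) (show 0 < b - c by linarith) x y
          (measurable_const.mul ((H41.G_cont _).measurable.comp
            (measurable_const.sub measurable_id))) (sk_basic hD L₁ s c g1).1 (sk_meas_l hD g2 y)
          hf (sk_basic hD L₁ s c g1).2.1 (fun z => (sk_basic hD L₂ c b g2).2.1 z y)]
        have hbd : Integrable fun w => G (s - a) (x - w) * G (b - s) (w - y) :=
          G_int2 (by linarith [h.1]) (by linarith) x y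
        have hi2 : Integrable fun w => iD D x * G (s - a) (x - w) * SK D s L b w y := by
          refine hbd.mono' ?_ (Eventually.of_forall fun w => ?_)
          · exact ((measurable_const.mul ((H41.G_cont _).measurable.comp
              (measurable_const.sub measurable_id))).mul
              (sk_meas_l hD h.2 y)).aestronglyMeasurable
          · have e2 := (sk_basic hD L s b h.2).2.1 w y
            rw [Real.norm_of_nonneg (mul_nonneg (hf w).1 e2.1)]
            exact mul_le_mul (hf w).2 e2.2 e2.1 ((hf w).1.trans (hf w).2)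
        refine integral_mono_of_nonneg (Eventually.of_forall fun w => mul_nonneg (hf w).1
          (integral_nonneg fun z => mul_nonneg ((sk_basic hD L₁ s c g1).2.1 w z).1
            ((sk_basic hD L₂ c b g2).2.1 z y).1)) hi2 (Eventually.of_forall fun w => ?_)
        exact mul_le_mul_of_nonneg_left (hle w y) (hf w).1
    · subst hsc
      refine ⟨[], L, hac, h.2, by simp, fun r hr => List.mem_cons_of_mem _ hr, fun x y => ?_⟩
      exact (sk_append hD [] L a s b hac h.2 x y).symm.le
    · refine ⟨[], s :: L, hac, ⟨hsc, h.2⟩, by simp, fun r hr => hr, fun x y => ?_⟩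
      show ∫ z, iD D x * iD D z * G (c - a) (x - z)
          * (∫ w, iD D z * G (s - c) (z - w) * SK D s L b w y)
        ≤ ∫ w, iD D x * G (s - a) (x - w) * SK D s L b w y
      have hk := (sk_basic hD L s b h.2).2.1
      -- compare with the free kernel
      have e1 : ∀ z, iD D x * iD D z * G (c - a) (x - z)
          * (∫ w, iD D z * G (s - c) (z - w) * SK D s L b w y)
          ≤ iD D x * (G (c - a) (x - z) * ∫ w, G (s - c) (z - w) * SK D s L b w y) := by
        intro z
        have h0 : ∫ w, iD D z * G (s - c) (z - w) * SK D s L b w y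
            = iD D z * ∫ w, G (s - c) (z - w) * SK D s L b w y := by
          rw [← integral_const_mul]
          simp only [mul_assoc]
        rw [h0]
        have h1 := iD_sq D z
        have h2 : iD D x * iD D z * G (c - a) (x - z)
            * (iD D z * ∫ w, G (s - c) (z - w) * SK D s L b w y)
          = iD D z * (iD D x * (G (c - a) (x - z)
            * ∫ w, G (s - c) (z - w) * SK D s L b w y)) := by
          linear_combination (iD D x * (G (c - a) (x - z)
            * ∫ w, G (s - c) (z - w) * SK D s L b w y)) * h1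
        rw [h2]
        have h3 : 0 ≤ iD D x * (G (c - a) (x - z)
            * ∫ w, G (s - c) (z - w) * SK D s L b w y) :=
          mul_nonneg (iD_nonneg D x) (mul_nonneg (G_nonneg (by linarith) _)
            (integral_nonneg fun w => mul_nonneg (G_nonneg (by linarith) _) (hk w y).1))
        calc _ ≤ 1 * (iD D x * (G (c - a) (x - z)
            * ∫ w, G (s - c) (z - w) * SK D s L b w y)) :=
            mul_le_mul_of_nonneg_right (iD_le D z) h3
          _ = _ := one_mul _
      have e3 : ∫ z, G (c - a) (x - z) * ∫ w, G (s - c) (z - w) * SK D s L b w y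
          = ∫ w, (∫ z, G (c - a) (x - z) * G (s - c) (z - w)) * SK D s L b w y := by
        symm
        exact fub (f := fun z => G (c - a) (x - z)) (g := fun z w => G (s - c) (z - w))
          (h := fun w => SK D s L b w y) (show 0 < c - a by linarith)
          (show 0 < s - c by linarith) (show 0 < b - s by linarith) x y
          ((H41.G_cont _).measurable.comp (measurable_const.sub measurable_id))
          ((H41.G_cont _).measurable.comp (measurable_fst.sub measurable_snd))
          (sk_meas_l hD h.2 y) (fun w => ⟨G_nonneg (by linarith) _, le_rfl⟩)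
          (fun w z => ⟨G_nonneg (by linarith) _, le_rfl⟩) (fun z => hk z y)
      have e4 : ∀ w, ∫ z, G (c - a) (x - z) * G (s - c) (z - w) = G (s - a) (x - w) := by
        intro w
        rw [G_ck (by linarith) (by linarith) x w]
        congr 1
        ring
      have e5 : ∫ w, iD D x * G (s - a) (x - w) * SK D s L b w y
          = ∫ z, iD D x * (G (c - a) (x - z) * ∫ w, G (s - c) (z - w) * SK D s L b w y) := by
        rw [integral_const_mul, e3]
        simp only [e4]
        rw [← integral_const_mul]
        simp only [mul_assoc]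
      rw [e5]
      have hb1 : ∀ z, 0 ≤ ∫ w, G (s - c) (z - w) * SK D s L b w y ∧
          ∫ w, G (s - c) (z - w) * SK D s L b w y ≤ G (b - c) (z - y) := by
        intro z
        refine ⟨integral_nonneg fun w => mul_nonneg (G_nonneg (by linarith) _) (hk w y).1, ?_⟩
        have : b - c = (s - c) + (b - s) := by ring
        rw [this, ← G_ck (by linarith) (by linarith) z y]
        refine integral_mono_of_nonneg (Eventually.of_forall fun w =>
          mul_nonneg (G_nonneg (by linarith) _) (hk w y).1)
          (G_int2 (by linarith) (by linarith) z y) (Eventually.of_forall fun w => ?_)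
        exact mul_le_mul_of_nonneg_left (hk w y).2 (G_nonneg (by linarith) _)
      have hi3 : Integrable fun z => iD D x * (G (c - a) (x - z)
          * ∫ w, G (s - c) (z - w) * SK D s L b w y) := by
        refine Integrable.const_mul ?_ _
        refine (G_int2 (show 0 < c - a by linarith) (show 0 < b - c by linarith) x y).mono' ?_
          (Eventually.of_forall fun z => ?_)
        · have hm : Measurable fun p : ℂ × ℂ => G (s - c) (p.1 - p.2) * SK D s L b p.2 y :=
            ((H41.G_cont _).measurable.comp (measurable_fst.sub measurable_snd)).mul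
              ((sk_meas_l hD h.2 y).comp measurable_snd)
          exact (((H41.G_cont _).measurable.comp (measurable_const.sub measurable_id)).mul
            (hm.stronglyMeasurable.integral_prod_right' (ν := volume)).measurable)
              |>.aestronglyMeasurable
        · rw [Real.norm_of_nonneg (mul_nonneg (G_nonneg (by linarith) _) (hb1 z).1)]
          exact mul_le_mul_of_nonneg_left (hb1 z).2 (G_nonneg (by linarith) _)
      refine integral_mono_of_nonneg (Eventually.of_forall fun z => ?_) hi3
        (Eventually.of_forall e1)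
      exact mul_nonneg (mul_nonneg (mul_nonneg (iD_nonneg D x) (iD_nonneg D z))
        (G_nonneg (by linarith) _)) (integral_nonneg fun w => mul_nonneg
          (mul_nonneg (iD_nonneg D z) (G_nonneg (by linarith) _)) (hk w y).1)

/-- shift of the time -/
theorem sk_shift (L : List ℝ) (c : ℝ) : ∀ a b : ℝ, ∀ x y,
    SK D (a + c) (L.map (· + c)) (b + c) x y = SK D a L b x y := by
  induction L with
  | nil =>
    intro a b x y
    show iD D x * iD D y * G (b + c - (a + c)) (x - y) = iD D x * iD D y * G (b - a) (x - y)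
    rw [add_sub_add_right_eq_sub]
  | cons s L ih =>
    intro a b x y
    show ∫ z, iD D x * G (s + c - (a + c)) (x - z) * SK D (s + c) (L.map (· + c)) (b + c) z y
      = ∫ z, iD D x * G (s - a) (x - z) * SK D s L b z y
    rw [add_sub_add_right_eq_sub]
    simp only [ih]

/-! ### Continuity in the times -/

theorem G_near {σ τ : ℝ} (hσ : 0 < σ) (h1 : σ / 2 ≤ τ) (h2 : τ ≤ 2 * σ) (w : ℂ) :
    G τ w ≤ 4 * G (2 * σ) w := by
  have hτ : 0 < τ := by linarith
  unfold G
  have hpi := Real.pi_pos
  have e1 : 4 * (Real.exp (-(‖w‖ ^ 2) / (4 * (2 * σ))) / (4 * Real.pi * (2 * σ)))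
      = Real.exp (-(‖w‖ ^ 2) / (4 * (2 * σ))) / (2 * Real.pi * σ) := by
    field_simp
  rw [e1]
  apply div_le_div₀ (Real.exp_pos _).le _ (by positivity)
  · nlinarith
  · apply Real.exp_le_exp.mpr
    rw [neg_div, neg_div, neg_le_neg_iff]
    apply div_le_div_of_nonneg_left (by positivity) (by positivity)
    linarith

theorem G_time_cont {τ : ℝ} (hτ : 0 < τ) (w : ℂ) {f : ℕ → ℝ} (hf : Tendsto f atTop (𝓝 τ)) :
    Tendsto (fun m => G (f m) w) atTop (𝓝 (G τ w)) := by
  unfold G
  have hpi := Real.pi_pos
  apply Tendsto.div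
  · apply (Real.continuous_exp.tendsto _).comp
    exact (tendsto_const_nhds.div (tendsto_const_nhds.mul hf) (by positivity))
  · exact tendsto_const_nhds.mul hf
  · positivity

theorem good_ev (ρ : ℕ → ℝ → ℝ) (hρ : ∀ s, Tendsto (fun m => ρ m s) atTop (𝓝 s))
    (L : List ℝ) : ∀ a b : ℝ, Good a L b → ∀ᶠ m in atTop, Good (ρ m a) (L.map (ρ m)) (ρ m b) := by
  induction L with
  | nil =>
    intro a b h
    exact (hρ a).eventually_lt (hρ b) h
  | cons s L ih =>
    intro a b h
    filter_upwards [(hρ a).eventually_lt (hρ s) h.1, ih s b h.2] with m h1 h2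
    exact ⟨h1, h2⟩

theorem sk_tendsto (hD : MeasurableSet D) (ρ : ℕ → ℝ → ℝ)
    (hρ : ∀ s, Tendsto (fun m => ρ m s) atTop (𝓝 s)) (L : List ℝ) : ∀ a b : ℝ, Good a L b →
    ∀ x y, Tendsto (fun m => SK D (ρ m a) (L.map (ρ m)) (ρ m b) x y) atTop
      (𝓝 (SK D a L b x y)) := by
  induction L with
  | nil =>
    intro a b h x y
    have h' : a < b := h
    exact tendsto_const_nhds.mul (G_time_cont (by linarith) _ ((hρ b).sub (hρ a)))
  | cons s L ih =>
    intro a b h x y
    have hsb := h.2.lt
    have hsa : 0 < s - a := by linarith [h.1]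
    have hbs : 0 < b - s := by linarith
    show Tendsto (fun m => ∫ z, iD D x * G (ρ m s - ρ m a) (x - z)
      * SK D (ρ m s) (L.map (ρ m)) (ρ m b) z y) atTop
      (𝓝 (∫ z, iD D x * G (s - a) (x - z) * SK D s L b z y))
    have l1 := (hρ s).sub (hρ a)
    have l2 := (hρ b).sub (hρ s)
    have E1 : ∀ᶠ m in atTop, (s - a) / 2 ≤ ρ m s - ρ m a :=
      (l1.eventually_const_lt (by linarith)).mono fun m hm => hm.le
    have E2 : ∀ᶠ m in atTop, ρ m s - ρ m a ≤ 2 * (s - a) :=
      (l1.eventually_lt_const (by linarith)).mono fun m hm => hm.le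
    have E3 : ∀ᶠ m in atTop, (b - s) / 2 ≤ ρ m b - ρ m s :=
      (l2.eventually_const_lt (by linarith)).mono fun m hm => hm.le
    have E4 : ∀ᶠ m in atTop, ρ m b - ρ m s ≤ 2 * (b - s) :=
      (l2.eventually_lt_const (by linarith)).mono fun m hm => hm.le
    have E5 := good_ev ρ hρ L s b h.2
    refine tendsto_integral_filter_of_dominated_convergence
      (fun z => (4 * G (2 * (s - a)) (x - z)) * (4 * G (2 * (b - s)) (z - y))) ?_ ?_ ?_ ?_
    · filter_upwards [E5] with m g5
      exact ((measurable_const.mul ((H41.G_cont _).measurable.comp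
        (measurable_const.sub measurable_id))).mul (sk_meas_l hD g5 y)).aestronglyMeasurable
    · filter_upwards [E1, E2, E3, E4, E5] with m g1 g2 g3 g4 g5
      refine Eventually.of_forall fun z => ?_
      have e1 := G_nonneg (show 0 < ρ m s - ρ m a by linarith) (x - z)
      have e2 := (sk_basic hD _ _ _ g5).2.1 z y
      rw [Real.norm_of_nonneg (mul_nonneg (mul_nonneg (iD_nonneg D x) e1) e2.1)]
      refine mul_le_mul ?_ (e2.2.trans (G_near hbs g3 g4 _)) e2.1
        (mul_nonneg (by norm_num) (G_nonneg (by linarith) _))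
      calc iD D x * G (ρ m s - ρ m a) (x - z) ≤ 1 * G (ρ m s - ρ m a) (x - z) :=
          mul_le_mul_of_nonneg_right (iD_le D x) e1
        _ ≤ _ := by rw [one_mul]; exact G_near hsa g1 g2 _
    · have := (G_int2 (show 0 < 2 * (s - a) by linarith) (show 0 < 2 * (b - s) by linarith)
        x y).const_mul 16
      refine this.congr (Eventually.of_forall fun z => ?_)
      show 16 * (G (2 * (s - a)) (x - z) * G (2 * (b - s)) (z - y)) = _
      ring
    · refine Eventually.of_forall fun z => ?_
      exact (tendsto_const_nhds.mul (G_time_cont hsa _ l1)).mul (ih s b h.2 z y)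

/-! ### Comparison with the dyadic kernels -/

theorem ker_zero (D : Set ℂ) (t : ℝ) (x y : ℂ) : Ker D 0 t x y = SK D 0 [] t x y := by
  show _ = iD D x * iD D y * G (t - 0) (x - y)
  rw [sub_zero]
  rfl

theorem ker_le_sk (hD : IsOpen D) (m : ℕ) : ∀ t : ℝ, 0 < t → ∀ L, Good 0 L t →
    (∀ s ∈ L, ∃ k : ℤ, s = k * (t / 2 ^ m)) → ∀ x y, Ker D m t x y ≤ SK D 0 L t x y := by
  induction m with
  | zero =>
    intro t ht L hL hk x y
    cases L with
    | nil => exact (ker_zero D t x y).le
    | cons s L =>
      exfalso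
      obtain ⟨k, hk⟩ := hk s List.mem_cons_self
      have h1 := hL.mem (s := s) List.mem_cons_self
      rw [pow_zero, div_one] at hk
      rw [hk] at h1
      have h2 : (0 : ℝ) < k := pos_of_mul_pos_left h1.1 ht.le
      have h3 : (k : ℝ) < 1 := by
        by_contra hc
        push Not at hc
        nlinarith [h1.2]
      have h4 : 0 < k := by exact_mod_cast h2
      have h5 : k < 1 := by exact_mod_cast h3
      omega
  | succ m ih =>
    intro t ht L hL hk x y
    obtain ⟨L₁, L₂, g1, g2, m1, m2, hle⟩ := sk_split hD.measurableSet L 0 (t / 2) t hL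
      (by linarith) (by linarith)
    refine le_trans ?_ (hle x y)
    have g2' := g2.shift (-(t / 2))
    have s1 : t / 2 + -(t / 2) = 0 := by ring
    have s2 : t + -(t / 2) = t / 2 := by ring
    rw [s1, s2] at g2'
    have k1 : ∀ s ∈ L₁, ∃ k : ℤ, s = k * (t / 2 / 2 ^ m) := by
      intro s hs
      obtain ⟨k, hk⟩ := hk s (m1 s hs)
      exact ⟨k, by rw [hk, pow_succ]; field_simp⟩
    have k2 : ∀ s ∈ L₂.map (· + -(t / 2)), ∃ k : ℤ, s = k * (t / 2 / 2 ^ m) := by
      intro s hs
      obtain ⟨r, hr, rfl⟩ := List.mem_map.mp hs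
      obtain ⟨k, hk⟩ := hk r (m2 r hr)
      refine ⟨k - 2 ^ m, ?_⟩
      rw [hk, pow_succ]
      push_cast
      field_simp
      ring
    have c1 := ih (t / 2) (by linarith) L₁ g1 k1
    have c2 := ih (t / 2) (by linarith) _ g2' k2
    show ∫ z, Ker D m (t / 2) x z * Ker D m (t / 2) z y ≤ _
    refine integral_mono (H41.ker_integrable D hD m (t / 2) (by linarith) x y)
      (sk_int2 hD.measurableSet g1 g2 x y) fun z => ?_
    have hb := (H41.basic D hD m (t / 2) (by linarith)).2.1
    refine mul_le_mul (c1 x z) ?_ (hb z y).1 ((sk_basic hD.measurableSet _ _ _ g1).2.1 x z).1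
    have e := sk_shift (D := D) L₂ (-(t / 2)) (t / 2) t z y
    rw [s1, s2] at e
    rw [← e]
    exact c2 z y

theorem pD_le_sk (hD : IsOpen D) {t : ℝ} (ht : 0 < t) {L : List ℝ} (h : Good 0 L t) (x y : ℂ) :
    pD D t x y ≤ SK D 0 L t x y := by
  set ρ : ℕ → ℝ → ℝ := fun m s => (⌊s * 2 ^ m / t⌋ : ℤ) * (t / 2 ^ m) with hρdef
  have hρ : ∀ s, Tendsto (fun m => ρ m s) atTop (𝓝 s) := by
    intro s
    have hlim : Tendsto (fun m : ℕ => t / 2 ^ m) atTop (𝓝 0) := by
      have := (tendsto_pow_atTop_nhds_zero_of_lt_one (r := (1 / 2 : ℝ)) (by norm_num)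
        (by norm_num)).const_mul t
      simpa [div_eq_mul_inv] using this
    have h1 : ∀ m, s - t / 2 ^ m ≤ ρ m s := by
      intro m
      have hp : (0 : ℝ) < 2 ^ m := by positivity
      have h2 := (Int.lt_floor_add_one (s * 2 ^ m / t)).le
      have h3 : s * 2 ^ m / t * (t / 2 ^ m) = s := by field_simp
      have h4 := mul_le_mul_of_nonneg_right h2 (show 0 ≤ t / 2 ^ m by positivity)
      rw [h3] at h4
      simp only [hρdef]
      linarith
    have h2 : ∀ m, ρ m s ≤ s := by
      intro m
      have hp : (0 : ℝ) < 2 ^ m := by positivity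
      have h2 := Int.floor_le (s * 2 ^ m / t)
      have h3 : s * 2 ^ m / t * (t / 2 ^ m) = s := by field_simp
      have h4 := mul_le_mul_of_nonneg_right h2 (show 0 ≤ t / 2 ^ m by positivity)
      rw [h3] at h4
      exact h4
    refine tendsto_of_tendsto_of_tendsto_of_le_of_le ?_ tendsto_const_nhds h1 h2
    simpa using tendsto_const_nhds.sub hlim
  have h0 : ∀ m, ρ m 0 = 0 := by
    intro m
    simp [hρdef]
  have hT : ∀ m, ρ m t = t := by
    intro m
    simp only [hρdef]
    have : t * 2 ^ m / t = ((2 ^ m : ℤ) : ℝ) := by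
      push_cast
      field_simp
    rw [this, Int.floor_intCast]
    push_cast
    field_simp
  have hlim := sk_tendsto hD.measurableSet ρ hρ L 0 t h x y
  refine ge_of_tendsto hlim ?_
  filter_upwards [good_ev ρ hρ L 0 t h] with m hm
  rw [h0, hT] at hm ⊢
  refine (H16F.H8.pD_le_ker hD ht m x y).trans (ker_le_sk hD m t ht _ hm ?_ x y)
  intro s hs
  obtain ⟨r, -, rfl⟩ := List.mem_map.mp hs
  exact ⟨_, rfl⟩

theorem ker_eq_sk (hD : MeasurableSet D) (m : ℕ) : ∀ t : ℝ, 0 < t → ∃ L, Good 0 L t ∧
    ∀ x y, Ker D m t x y = SK D 0 L t x y := by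
  induction m with
  | zero =>
    intro t ht
    exact ⟨[], ht, ker_zero D t⟩
  | succ m ih =>
    intro t ht
    obtain ⟨L, hL, he⟩ := ih (t / 2) (by linarith)
    have hs := hL.shift (t / 2)
    have s1 : (0 : ℝ) + t / 2 = t / 2 := zero_add _
    have s2 : t / 2 + t / 2 = t := add_halves t
    rw [s1, s2] at hs
    refine ⟨L ++ (t / 2) :: L.map (· + t / 2), hL.append hs, fun x y => ?_⟩
    rw [sk_append hD L _ 0 (t / 2) t hL hs x y]
    show ∫ z, Ker D m (t / 2) x z * Ker D m (t / 2) z y = _
    refine integral_congr_ae (Eventually.of_forall fun z => ?_)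
    have e := sk_shift (D := D) L (t / 2) 0 (t / 2) z y
    rw [s1, s2] at e
    show Ker D m (t / 2) x z * Ker D m (t / 2) z y = SK D 0 L (t / 2) x z
      * SK D (t / 2) (L.map (· + t / 2)) t z y
    rw [he x z, he z y, e]

theorem pD_int2 (hD : IsOpen D) {s r : ℝ} (hs : 0 < s) (hr : 0 < r) (x y : ℂ) :
    Integrable fun z => pD D s x z * pD D r z y := by
  refine (G_int2 hs hr x y).mono' ?_ (Eventually.of_forall fun z => ?_)
  · have h1 : Measurable fun z => pD D s x z := (H16F.H8.pD_meas hD).comp
      (by fun_prop : Measurable fun z : ℂ => ((s, x, z) : ℝ × ℂ × ℂ))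
    have h2 : Measurable fun z => pD D r z y := (H16F.H8.pD_meas hD).comp
      (by fun_prop : Measurable fun z : ℂ => ((r, z, y) : ℝ × ℂ × ℂ))
    exact (h1.mul h2).aestronglyMeasurable
  · rw [Real.norm_of_nonneg (mul_nonneg (H16F.H8.pD_nonneg hD hs x z)
      (H16F.H8.pD_nonneg hD hr z y))]
    exact mul_le_mul (H16F.H8.pD_le hD hs x z) (H16F.H8.pD_le hD hr z y)
      (H16F.H8.pD_nonneg hD hr z y) (G_nonneg hs _)

/-- **PSG**: the Chapman-Kolmogorov equation for the heat kernel of an open set -/
theorem pD_add (hD : IsOpen D) {s r : ℝ} (hs : 0 < s) (hr : 0 < r) (x y : ℂ) :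
    pD D (s + r) x y = ∫ z, pD D s x z * pD D r z y := by
  apply le_antisymm
  · have hlim : Tendsto (fun m => ∫ z, Ker D m s x z * Ker D m r z y) atTop
        (𝓝 (∫ z, pD D s x z * pD D r z y)) := by
      refine tendsto_integral_of_dominated_convergence (fun z => G s (x - z) * G r (z - y)) ?_
        (G_int2 hs hr x y) ?_ ?_
      · intro m
        have h1 : Measurable fun z => Ker D m s x z :=
          (H41.basic D hD m s hs).1.comp measurable_prodMk_left
        have h2 : Measurable fun z => Ker D m r z y :=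
          (H41.basic D hD m r hr).1.comp measurable_prodMk_right
        exact (h1.mul h2).aestronglyMeasurable
      · intro m
        refine Eventually.of_forall fun z => ?_
        have h1 := (H41.basic D hD m s hs).2.1 x z
        have h2 := (H41.basic D hD m r hr).2.1 z y
        rw [Real.norm_of_nonneg (mul_nonneg h1.1 h2.1)]
        exact mul_le_mul h1.2 h2.2 h2.1 (G_nonneg hs _)
      · exact Eventually.of_forall fun z =>
          (H16F.H8.pD_tendsto hD hs x z).mul (H16F.H8.pD_tendsto hD hr z y)
    refine ge_of_tendsto hlim (Eventually.of_forall fun m => ?_)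
    obtain ⟨L, hL, he⟩ := ker_eq_sk hD.measurableSet m s hs
    obtain ⟨L', hL', he'⟩ := ker_eq_sk hD.measurableSet m r hr
    have hs' := hL'.shift s
    have s1 : (0 : ℝ) + s = s := zero_add _
    have s2 : r + s = s + r := add_comm _ _
    rw [s1, s2] at hs'
    refine (pD_le_sk hD (by positivity) (hL.append hs') x y).trans ?_
    rw [sk_append hD.measurableSet L _ 0 s (s + r) hL hs' x y]
    refine (integral_congr_ae (Eventually.of_forall fun z => ?_)).le
    have e := sk_shift (D := D) L' s 0 r z y
    rw [s1, s2] at e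
    show SK D 0 L s x z * SK D s (L'.map (· + s)) (s + r) z y = Ker D m s x z * Ker D m r z y
    rw [he x z, he' z y, e]
  · refine le_ciInf fun M => ?_
    obtain ⟨L, hL, he⟩ := ker_eq_sk hD.measurableSet M (s + r) (by positivity)
    rw [he x y]
    obtain ⟨L₁, L₂, g1, g2, -, -, hle⟩ := sk_split hD.measurableSet L 0 s (s + r) hL hs
      (by linarith)
    refine le_trans ?_ (hle x y)
    refine integral_mono (pD_int2 hD hs hr x y) (sk_int2 hD.measurableSet g1 g2 x y) fun z => ?_
    have g2' := g2.shift (-s)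
    have s1 : s + -s = 0 := by ring
    have s2 : s + r + -s = r := by ring
    rw [s1, s2] at g2'
    have e := sk_shift (D := D) L₂ (-s) s (s + r) z y
    rw [s1, s2] at e
    refine mul_le_mul (pD_le_sk hD hs g1 x z) ?_ (H16F.H8.pD_nonneg hD hr z y)
      ((sk_basic hD.measurableSet _ _ _ g1).2.1 x z).1
    rw [← e]
    exact pD_le_sk hD hr g2' z y

end Pool.Agent.AEU.H44
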