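import Mathlib

/-!
Squad AEU, Part III: the integral of `sinh (p τ) cosh (c τ) / sinh (q τ)`.
-/

namespace Pool.Agent.AEU.H44

open MeasureTheory Complex Filter Topology Set

theorem norm_cosh_le (w : ℂ) : ‖Complex.cosh w‖ ≤ Real.exp |w.re| := by
  have h1 : ‖Complex.exp w‖ ≤ Real.exp |w.re| := by
    rw [Complex.norm_exp]
    exact Real.exp_le_exp.mpr (le_abs_self _)
  have h2 : ‖Complex.exp (-w)‖ ≤ Real.exp |w.re| := by
    rw [Complex.norm_exp]
    apply Real.exp_le_exp.mpr
    rw [Complex.neg_re]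
    exact neg_le_abs _
  have h3 : Complex.cosh w = (Complex.exp w + Complex.exp (-w)) / 2 := rfl
  rw [h3, norm_div]
  have h4 := norm_add_le (Complex.exp w) (Complex.exp (-w))
  have h5 : ‖(2 : ℂ)‖ = 2 := by simp
  rw [h5, div_le_iff₀ (by norm_num)]
  linarith

theorem norm_sinh_le' (w : ℂ) : ‖Complex.sinh w‖ ≤ ‖w‖ * Real.exp |w.re| := by
  have hd : ∀ s ∈ Set.Icc (0 : ℝ) 1, HasDerivWithinAt (fun s : ℝ => Complex.sinh (s * w))
      (Complex.cosh (s * w) * w) (Set.Icc (0 : ℝ) 1) s := by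
    intro s _
    have h1 : HasDerivAt (fun s : ℝ => (s : ℂ) * w) (1 * w) s :=
      (Complex.ofRealCLM.hasDerivAt (x := s)).mul_const w
    rw [one_mul] at h1
    exact (((Complex.hasDerivAt_sinh ((s : ℂ) * w)).comp s h1)).hasDerivWithinAt
  have hb : ∀ s ∈ Set.Ico (0 : ℝ) 1, ‖Complex.cosh (s * w) * w‖ ≤ Real.exp |w.re| * ‖w‖ := by
    intro s hs
    rw [norm_mul]
    refine mul_le_mul_of_nonneg_right ((norm_cosh_le _).trans ?_) (norm_nonneg _)
    apply Real.exp_le_exp.mpr
    rw [Complex.re_ofReal_mul, abs_mul, abs_of_nonneg hs.1]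
    have := abs_nonneg w.re
    nlinarith [hs.2]
  have := norm_image_sub_le_of_norm_deriv_le_segment' hd hb 1 ⟨zero_le_one, le_rfl⟩
  simp only [Complex.ofReal_one, one_mul, Complex.ofReal_zero, zero_mul, Complex.sinh_zero,
    sub_zero, mul_one] at this
  linarith

theorem div_sinh_le {τ : ℝ} (hτ : 0 < τ) :
    τ / Real.sinh τ ≤ (1 + 2 * τ) * Real.exp (-τ) := by
  have hs : 0 < Real.sinh τ := Real.sinh_pos_iff.mpr hτ
  rw [div_le_iff₀ hs, Real.sinh_eq]
  have h1 := Real.add_one_le_exp (2 * τ)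
  have h2 : Real.exp (-τ) * Real.exp τ = 1 := by rw [← Real.exp_add]; simp
  have h3 : Real.exp (-τ) * Real.exp (-τ) * Real.exp (2 * τ) = 1 := by
    rw [← Real.exp_add, ← Real.exp_add]
    have : -τ + -τ + 2 * τ = 0 := by ring
    rw [this, Real.exp_zero]
  have h4 : 0 < Real.exp (-τ) * Real.exp (-τ) := by positivity
  have h5 : (2 * τ + 1) * (Real.exp (-τ) * Real.exp (-τ)) ≤ 1 := by nlinarith only [h3, h1]
  nlinarith only [h2, h5, hτ]

theorem intg_bound (a C : ℝ) (ha : a < 1) :
    IntegrableOn (fun τ : ℝ => C * ((1 + 2 * τ) * Real.exp (-((1 - a) * τ)))) (Set.Ioi 0) := by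
  refine Integrable.const_mul ?_ C
  have h1 : IntegrableOn (fun τ : ℝ => Real.exp (-(1 - a) * τ)) (Set.Ioi 0) :=
    exp_neg_integrableOn_Ioi 0 (by linarith)
  have h2 : IntegrableOn (fun τ : ℝ => τ ^ (1 : ℝ) * Real.exp (-(1 - a) * τ ^ (1 : ℝ)))
      (Set.Ioi 0) :=
    integrableOn_rpow_mul_exp_neg_mul_rpow (by norm_num) (by norm_num) (by linarith)
  have h3 := h1.add (h2.const_mul 2)
  refine h3.congr (Eventually.of_forall fun τ => ?_)
  simp only [Pi.add_apply, Real.rpow_one]
  have : -((1 - a) * τ) = -(1 - a) * τ := by ring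
  rw [this]
  ring

theorem norm_quot_le (w : ℂ) {τ : ℝ} (hτ : 0 < τ) :
    ‖Complex.sinh (w * τ) / (Real.sinh τ : ℂ)‖
      ≤ ‖w‖ * ((1 + 2 * τ) * Real.exp (-((1 - |w.re|) * τ))) := by
  have hs : 0 < Real.sinh τ := Real.sinh_pos_iff.mpr hτ
  rw [norm_div, Complex.norm_real, Real.norm_of_nonneg hs.le]
  have h1 := norm_sinh_le' (w * τ)
  have h2 : (w * (τ : ℂ)).re = w.re * τ := by
    simp
  rw [norm_mul, Complex.norm_real, Real.norm_of_nonneg hτ.le, h2, abs_mul, abs_of_pos hτ] at h1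
  calc ‖Complex.sinh (w * τ)‖ / Real.sinh τ
      ≤ (‖w‖ * τ * Real.exp (|w.re| * τ)) / Real.sinh τ := by gcongr
    _ = ‖w‖ * Real.exp (|w.re| * τ) * (τ / Real.sinh τ) := by ring
    _ ≤ ‖w‖ * Real.exp (|w.re| * τ) * ((1 + 2 * τ) * Real.exp (-τ)) := by
        exact mul_le_mul_of_nonneg_left (div_sinh_le hτ) (by positivity)
    _ = ‖w‖ * ((1 + 2 * τ) * (Real.exp (|w.re| * τ) * Real.exp (-τ))) := by ring
    _ = _ := by
        rw [← Real.exp_add]
        congr 3
        ring

theorem intg_quot (w : ℂ) (hw : |w.re| < 1) :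
    IntegrableOn (fun τ : ℝ => Complex.sinh (w * τ) / (Real.sinh τ : ℂ)) (Set.Ioi 0) := by
  refine Integrable.mono' (intg_bound |w.re| ‖w‖ hw) ?_ ?_
  · refine Measurable.aestronglyMeasurable ?_
    fun_prop
  · filter_upwards [ae_restrict_mem measurableSet_Ioi] with τ hτ
    exact norm_quot_le w hτ

/-- partial sums of the geometric series -/
theorem geo_part (τ : ℝ) (hτ : 0 < τ) (N : ℕ) :
    ∑ j ∈ Finset.range N, Real.exp (-((2 * j + 1) * τ))
      = (1 - Real.exp (-(2 * N * τ))) / (2 * Real.sinh τ) := by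
  have hs : 0 < Real.sinh τ := Real.sinh_pos_iff.mpr hτ
  rw [eq_div_iff (by positivity)]
  induction N with
  | zero => simp
  | succ N ih =>
    rw [Finset.sum_range_succ, add_mul, ih, Real.sinh_eq]
    push_cast
    have e1 : Real.exp (-((2 * (N : ℝ) + 1) * τ)) * Real.exp τ = Real.exp (-(2 * N * τ)) := by
      rw [← Real.exp_add]; congr 1; ring
    have e2 : Real.exp (-((2 * (N : ℝ) + 1) * τ)) * Real.exp (-τ)
        = Real.exp (-(2 * (N + 1) * τ)) := by
      rw [← Real.exp_add]; congr 1; ring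
    linear_combination e1 - e2

theorem part_sum (w : ℂ) (τ : ℝ) (hτ : 0 < τ) (N : ℕ) :
    ∑ j ∈ Finset.range N, (Complex.exp (-(2 * j + 1 - w) * τ) - Complex.exp (-(2 * j + 1 + w) * τ))
      = Complex.sinh (w * τ) / (Real.sinh τ : ℂ) * ((1 - Real.exp (-(2 * N * τ)) : ℝ) : ℂ) := by
  have e1 : ∀ j : ℕ, Complex.exp (-(2 * j + 1 - w) * τ) - Complex.exp (-(2 * j + 1 + w) * τ)
      = 2 * Complex.sinh (w * τ) * ((Real.exp (-((2 * j + 1) * τ)) : ℝ) : ℂ) := by
    intro j
    have h3 : Complex.sinh (w * τ) = (Complex.exp (w * τ) - Complex.exp (-(w * τ))) / 2 := rfl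
    rw [h3, Complex.ofReal_exp]
    have h4 : Complex.exp (-(2 * j + 1 - w) * τ)
        = Complex.exp (w * τ) * Complex.exp ((-((2 * j + 1) * τ) : ℝ) : ℂ) := by
      rw [← Complex.exp_add]
      congr 1
      push_cast
      ring
    have h5 : Complex.exp (-(2 * j + 1 + w) * τ)
        = Complex.exp (-(w * τ)) * Complex.exp ((-((2 * j + 1) * τ) : ℝ) : ℂ) := by
      rw [← Complex.exp_add]
      congr 1
      push_cast
      ring
    rw [h4, h5]
    ring
  simp only [e1]
  rw [← Finset.mul_sum, ← Complex.ofReal_sum, geo_part τ hτ N]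
  have hs : (Real.sinh τ : ℂ) ≠ 0 := by
    exact_mod_cast (Real.sinh_pos_iff.mpr hτ).ne'
  push_cast at hs ⊢
  field_simp

theorem int_part (w : ℂ) (hw : |w.re| < 1) (j : ℕ) :
    IntegrableOn (fun τ : ℝ => Complex.exp (-(2 * j + 1 - w) * τ)
      - Complex.exp (-(2 * j + 1 + w) * τ)) (Set.Ioi 0) ∧
    ∫ τ in Set.Ioi (0 : ℝ), (Complex.exp (-(2 * j + 1 - w) * τ)
      - Complex.exp (-(2 * j + 1 + w) * τ)) = 1 / (2 * j + 1 - w) - 1 / (2 * j + 1 + w) := by
  have hj : (0 : ℝ) ≤ j := Nat.cast_nonneg j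
  rw [abs_lt] at hw
  have h1 : (-(2 * (j : ℂ) + 1 - w)).re < 0 := by
    simp
    linarith [hw.2]
  have h2 : (-(2 * (j : ℂ) + 1 + w)).re < 0 := by
    simp
    linarith [hw.1]
  have i1 := integrableOn_exp_mul_complex_Ioi h1 0
  have i2 := integrableOn_exp_mul_complex_Ioi h2 0
  refine ⟨i1.sub i2, ?_⟩
  rw [integral_sub i1 i2, integral_exp_mul_complex_Ioi h1, integral_exp_mul_complex_Ioi h2]
  simp only [Complex.ofReal_zero, mul_zero, Complex.exp_zero]
  rw [neg_div_neg_eq, neg_div_neg_eq]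

/-- Mittag-Leffler series of the tangent -/
theorem tan_series (w : ℂ) (hw : |w.re| < 1) :
    Tendsto (fun n : ℕ => ∑ j ∈ Finset.range n, (1 / (2 * (j : ℂ) + 1 - w) - 1 / (2 * j + 1 + w)))
      atTop (𝓝 (Real.pi / 2 * Complex.tan (Real.pi * w / 2))) := by
  rw [abs_lt] at hw
  set y : ℂ := (1 - w) / 2 with hy
  have hyre : y.re = (1 - w.re) / 2 := by
    simp [hy]
  have hyint : y ∈ Complex.integerComplement := by
    intro hc
    obtain ⟨k, hk⟩ := hc
    have h1 : (k : ℝ) = (1 - w.re) / 2 := by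
      rw [← hyre, ← hk]
      simp
    have h2 : (0 : ℝ) < k := by rw [h1]; linarith [hw.2]
    have h3 : (k : ℝ) < 1 := by rw [h1]; linarith [hw.1]
    have h4 : 0 < k := by exact_mod_cast h2
    have h5 : k < 1 := by exact_mod_cast h3
    omega
  have hy0 : y ≠ 0 := by
    intro h
    have := hyre
    rw [h] at this
    simp at this
    linarith [hw.2]
  have key := (tendsto_logDeriv_euler_cot_sub hyint).const_add (1 / y)
  have e0 : 1 / y + (Real.pi * Complex.cot (Real.pi * y) - 1 / y)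
      = Real.pi * Complex.cot (Real.pi * y) := by ring
  rw [e0] at key
  have hcot : Complex.cot (Real.pi * y) = Complex.tan (Real.pi * w / 2) := by
    have h1 : (Real.pi : ℂ) * y = Real.pi / 2 - Real.pi * w / 2 := by
      rw [hy]; ring
    rw [h1, Complex.cot_eq_cos_div_sin, Complex.cos_pi_div_two_sub, Complex.sin_pi_div_two_sub]
    rfl
  rw [hcot] at key
  -- the sums
  have ne1 : ∀ j : ℕ, (2 * (j : ℂ) + 1 - w) ≠ 0 := by
    intro j h
    have h1 := congrArg Complex.re h
    simp at h1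
    have hj : (0 : ℝ) ≤ j := Nat.cast_nonneg j
    linarith [hw.2]
  have ne2 : ∀ j : ℕ, (2 * (j : ℂ) + 1 + w) ≠ 0 := by
    intro j h
    have h1 := congrArg Complex.re h
    simp at h1
    have hj : (0 : ℝ) ≤ j := Nat.cast_nonneg j
    linarith [hw.1]
  have hsum : ∀ n : ℕ, 1 / y + ∑ j ∈ Finset.range n, cotTerm y j
      = 2 * ∑ j ∈ Finset.range n, (1 / (2 * (j : ℂ) + 1 - w) - 1 / (2 * j + 1 + w))
        + 2 / (2 * n + 1 - w) := by
    intro n
    induction n with
    | zero =>
      simp only [Finset.range_zero, Finset.sum_empty, hy, Nat.cast_zero]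
      have := ne1 0
      simp only [Nat.cast_zero] at this
      have h1 : (1 - w) ≠ 0 := by simpa using this
      field_simp
      ring
    | succ n ih =>
      rw [Finset.sum_range_succ, ← add_assoc, ih, Finset.sum_range_succ]
      have h1 := ne1 n
      have h2 := ne2 n
      have h3 := ne1 (n + 1)
      push_cast at h3
      have e1 : y - ((n : ℂ) + 1) = -(2 * n + 1 + w) / 2 := by rw [hy]; ring
      have e2 : y + ((n : ℂ) + 1) = (2 * (n + 1) + 1 - w) / 2 := by rw [hy]; ring
      show _ + (1 / (y - ((n : ℂ) + 1)) + 1 / (y + ((n : ℂ) + 1))) = _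
      rw [e1, e2]
      push_cast
      field_simp
      ring
  have hlim : Tendsto (fun n : ℕ => (2 : ℂ) / (2 * n + 1 - w)) atTop (𝓝 0) := by
    rw [tendsto_zero_iff_norm_tendsto_zero]
    have hb : ∀ n : ℕ, ‖(2 : ℂ) / (2 * n + 1 - w)‖ ≤ 2 / (2 * (n : ℝ) + 1 - w.re) := by
      intro n
      have hj : (0 : ℝ) ≤ n := Nat.cast_nonneg n
      rw [norm_div]
      have h1 : ‖(2 : ℂ)‖ = 2 := by simp
      rw [h1]
      have h2 : 2 * (n : ℝ) + 1 - w.re ≤ ‖2 * (n : ℂ) + 1 - w‖ := by
        have := Complex.re_le_norm (2 * (n : ℂ) + 1 - w)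
        simpa using this
      exact div_le_div_of_nonneg_left (by norm_num) (by linarith [hw.2]) h2
    refine squeeze_zero (fun n => norm_nonneg _) hb ?_
    apply Tendsto.div_atTop tendsto_const_nhds
    have h3 : Tendsto (fun n : ℕ => 2 * (n : ℝ)) atTop atTop :=
      tendsto_natCast_atTop_atTop.const_mul_atTop (by norm_num)
    have h4 := tendsto_atTop_add_const_right atTop (1 - w.re) h3
    refine h4.congr fun n => ?_
    ring
  simp only [hsum] at key
  have key2 := (key.sub hlim).const_mul (1 / 2)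
  have e5 : (1 / 2 : ℂ) * (Real.pi * Complex.tan (Real.pi * w / 2) - 0)
      = Real.pi / 2 * Complex.tan (Real.pi * w / 2) := by ring
  rw [e5] at key2
  refine key2.congr fun n => ?_
  ring

/-- the integral of `sinh (w τ) / sinh τ` -/
theorem int_quot (w : ℂ) (hw : |w.re| < 1) :
    ∫ τ in Set.Ioi (0 : ℝ), Complex.sinh (w * τ) / (Real.sinh τ : ℂ)
      = Real.pi / 2 * Complex.tan (Real.pi * w / 2) := by
  have h1 : ∀ N : ℕ, ∫ τ in Set.Ioi (0 : ℝ), Complex.sinh (w * τ) / (Real.sinh τ : ℂ)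
      * ((1 - Real.exp (-(2 * N * τ)) : ℝ) : ℂ)
      = ∑ j ∈ Finset.range N, (1 / (2 * (j : ℂ) + 1 - w) - 1 / (2 * j + 1 + w)) := by
    intro N
    have e : ∫ τ in Set.Ioi (0 : ℝ), Complex.sinh (w * τ) / (Real.sinh τ : ℂ)
      * ((1 - Real.exp (-(2 * N * τ)) : ℝ) : ℂ) = ∫ τ in Set.Ioi (0 : ℝ),
      ∑ j ∈ Finset.range N, (Complex.exp (-(2 * j + 1 - w) * τ)
        - Complex.exp (-(2 * j + 1 + w) * τ)) := by
      refine setIntegral_congr_fun measurableSet_Ioi fun τ hτ => ?_
      exact (part_sum w τ hτ N).symm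
    rw [e, integral_finsetSum _ fun j _ => (int_part w hw j).1]
    exact Finset.sum_congr rfl fun j _ => (int_part w hw j).2
  have hlim : Tendsto (fun N : ℕ => ∫ τ in Set.Ioi (0 : ℝ),
      Complex.sinh (w * τ) / (Real.sinh τ : ℂ) * ((1 - Real.exp (-(2 * N * τ)) : ℝ) : ℂ)) atTop
      (𝓝 (∫ τ in Set.Ioi (0 : ℝ), Complex.sinh (w * τ) / (Real.sinh τ : ℂ))) := by
    refine tendsto_integral_of_dominated_convergence
      (fun τ => ‖Complex.sinh (w * τ) / (Real.sinh τ : ℂ)‖) ?_ (intg_quot w hw).norm ?_ ?_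
    · intro N
      refine Measurable.aestronglyMeasurable ?_
      fun_prop
    · intro N
      filter_upwards [ae_restrict_mem measurableSet_Ioi] with τ hτ
      rw [norm_mul, Complex.norm_real]
      have h2 : 0 < Real.exp (-(2 * N * τ)) := Real.exp_pos _
      have h3 : Real.exp (-(2 * N * τ)) ≤ 1 := by
        rw [Real.exp_le_one_iff]
        have : (0 : ℝ) ≤ N := Nat.cast_nonneg N
        have hτ' : (0 : ℝ) < τ := hτ
        have : 0 ≤ 2 * (N : ℝ) * τ := by positivity
        linarith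
      have h4 : ‖(1 - Real.exp (-(2 * N * τ)) : ℝ)‖ ≤ 1 := by
        rw [Real.norm_of_nonneg (by linarith)]
        linarith
      exact mul_le_of_le_one_right (norm_nonneg _) h4
    · filter_upwards [ae_restrict_mem measurableSet_Ioi] with τ hτ
      have hτ' : (0 : ℝ) < τ := hτ
      have h2 : Tendsto (fun N : ℕ => (1 - Real.exp (-(2 * N * τ)) : ℝ)) atTop (𝓝 (1 - 0)) := by
        refine tendsto_const_nhds.sub ?_
        apply Real.tendsto_exp_atBot.comp
        apply tendsto_neg_atTop_atBot.comp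
        have h3 : Tendsto (fun n : ℕ => (n : ℝ) * (2 * τ)) atTop atTop :=
          tendsto_natCast_atTop_atTop.atTop_mul_const (by positivity)
        refine h3.congr fun n => ?_
        ring
      have h5 := (Complex.continuous_ofReal.tendsto _).comp h2
      have h6 := h5.const_mul (Complex.sinh (w * τ) / (Real.sinh τ : ℂ))
      simpa using h6
  simp only [h1] at hlim
  exact tendsto_nhds_unique hlim (tan_series w hw)

/-- the integral of `sinh (z τ) / sinh (q τ)` -/
theorem int_quot' (q : ℝ) (hq : 0 < q) (z : ℂ) (hz : |z.re| < q) :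
    IntegrableOn (fun τ : ℝ => Complex.sinh (z * τ) / (Real.sinh (q * τ) : ℂ)) (Set.Ioi 0) ∧
    ∫ τ in Set.Ioi (0 : ℝ), Complex.sinh (z * τ) / (Real.sinh (q * τ) : ℂ)
      = Real.pi / (2 * q) * Complex.tan (Real.pi * z / (2 * q)) := by
  have hw : |(z / q).re| < 1 := by
    rw [Complex.div_ofReal_re, abs_div, abs_of_pos hq, div_lt_one hq]
    exact hz
  have hq' : (q : ℂ) ≠ 0 := by exact_mod_cast hq.ne'
  have e : ∀ τ : ℝ, Complex.sinh (z * τ) / (Real.sinh (q * τ) : ℂ)
      = (fun s : ℝ => Complex.sinh (z / q * s) / (Real.sinh s : ℂ)) (q * τ) := by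
    intro τ
    simp only
    congr 2
    push_cast
    field_simp
  constructor
  · have h1 := (integrableOn_Ioi_comp_mul_left_iff
      (fun s : ℝ => Complex.sinh (z / q * s) / (Real.sinh s : ℂ)) 0 hq).mpr
      (by rw [mul_zero]; exact intg_quot _ hw)
    exact h1.congr (Eventually.of_forall fun τ => (e τ).symm)
  · simp only [e]
    rw [integral_comp_mul_left_Ioi (fun s : ℝ => Complex.sinh (z / q * s) / (Real.sinh s : ℂ)) 0
      hq, mul_zero, int_quot _ hw, Complex.real_smul]
    push_cast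
    have e2 : (Real.pi : ℂ) * (z / q) / 2 = Real.pi * z / (2 * q) := by
      field_simp
    rw [e2]
    field_simp

theorem tan_add_tan (a b : ℂ) (ha : Complex.cos a ≠ 0) (hb : Complex.cos b ≠ 0) :
    Complex.tan a + Complex.tan b
      = 2 * Complex.sin (a + b) / (Complex.cos (a - b) + Complex.cos (a + b)) := by
  have h1 : Complex.cos (a - b) + Complex.cos (a + b) = 2 * (Complex.cos a * Complex.cos b) := by
    rw [Complex.cos_sub, Complex.cos_add]
    ring
  rw [h1, Complex.sin_add, Complex.tan_eq_sin_div_cos, Complex.tan_eq_sin_div_cos]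
  field_simp

theorem cos_ne_zero_of_re {z : ℂ} (h : |z.re| < Real.pi / 2) : Complex.cos z ≠ 0 := by
  rw [Complex.cos_ne_zero_iff]
  intro k hk
  have h1 := congrArg Complex.re hk
  have h2 : (((2 * (k : ℂ) + 1) * Real.pi / 2)).re = (2 * (k : ℝ) + 1) * Real.pi / 2 := by
    have : ((2 * (k : ℂ) + 1) * Real.pi / 2) = (((2 * (k : ℝ) + 1) * Real.pi / 2 : ℝ) : ℂ) := by
      push_cast
      ring
    rw [this, Complex.ofReal_re]
  rw [h2] at h1
  rw [h1] at h
  have hpi := Real.pi_pos
  rw [abs_lt] at h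
  have h3 : (2 * (k : ℝ) + 1) < 1 := by
    by_contra hc
    push Not at hc
    nlinarith only [h, hc, h.2]
  have h4 : -1 < (2 * (k : ℝ) + 1) := by
    by_contra hc
    push Not at hc
    nlinarith [h.1]
  have h5 : (k : ℝ) < 0 := by linarith
  have h6 : (-1 : ℝ) < k := by linarith
  have h7 : k < 0 := by exact_mod_cast h5
  have h8 : -1 < k := by exact_mod_cast h6
  omega

/-- the integral of `sinh (p τ) cosh (c τ) / sinh (q τ)` -/
theorem int_pc (q : ℝ) (hq : 0 < q) (p c : ℂ) (h1 : |(p + c).re| < q) (h2 : |(p - c).re| < q) :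
    IntegrableOn (fun τ : ℝ => Complex.sinh (p * τ) * Complex.cosh (c * τ)
      / (Real.sinh (q * τ) : ℂ)) (Set.Ioi 0) ∧
    ∫ τ in Set.Ioi (0 : ℝ), Complex.sinh (p * τ) * Complex.cosh (c * τ)
      / (Real.sinh (q * τ) : ℂ)
      = Real.pi / (2 * q) * (Complex.sin (Real.pi * p / q)
        / (Complex.cos (Real.pi * c / q) + Complex.cos (Real.pi * p / q))) := by
  have i1 := int_quot' q hq (p + c) h1
  have i2 := int_quot' q hq (p - c) h2
  have e : ∀ τ : ℝ, Complex.sinh (p * τ) * Complex.cosh (c * τ) / (Real.sinh (q * τ) : ℂ)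
      = 1 / 2 * (Complex.sinh ((p + c) * τ) / (Real.sinh (q * τ) : ℂ)
        + Complex.sinh ((p - c) * τ) / (Real.sinh (q * τ) : ℂ)) := by
    intro τ
    have : Complex.sinh ((p + c) * τ) + Complex.sinh ((p - c) * τ)
        = 2 * (Complex.sinh (p * τ) * Complex.cosh (c * τ)) := by
      rw [add_mul, sub_mul, Complex.sinh_add, Complex.sinh_sub]
      ring
    rw [← add_div, this]
    ring
  have hq' : (q : ℂ) ≠ 0 := by exact_mod_cast hq.ne'
  have hpi := Real.pi_pos
  have hre : ∀ z : ℂ, |z.re| < q → |(Real.pi * z / (2 * q)).re| < Real.pi / 2 := by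
    intro z hz
    have : (Real.pi * z / (2 * q)).re = Real.pi / (2 * q) * z.re := by
      have h3 : Real.pi * z / (2 * q) = ((Real.pi / (2 * q) : ℝ) : ℂ) * z := by
        push_cast
        ring
      rw [h3, Complex.re_ofReal_mul]
    rw [this, abs_mul, abs_of_pos (by positivity)]
    calc Real.pi / (2 * q) * |z.re| < Real.pi / (2 * q) * q :=
        mul_lt_mul_of_pos_left hz (by positivity)
      _ = Real.pi / 2 := by field_simp
  constructor
  · exact ((i1.1.add i2.1).const_mul (1 / 2 : ℂ)).congr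
      (Eventually.of_forall fun τ => (e τ).symm)
  · simp only [e]
    rw [integral_const_mul, integral_add i1.1 i2.1, i1.2, i2.2, ← mul_add,
      tan_add_tan _ _ (cos_ne_zero_of_re (hre _ h1)) (cos_ne_zero_of_re (hre _ h2))]
    have e3 : (Real.pi : ℂ) * (p + c) / (2 * q) + Real.pi * (p - c) / (2 * q)
        = Real.pi * p / q := by
      field_simp
      ring
    have e4 : (Real.pi : ℂ) * (p + c) / (2 * q) - Real.pi * (p - c) / (2 * q)
        = Real.pi * c / q := by
      field_simp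
      ring
    rw [e3, e4]
    ring

/-- real version, hyperbolic cosine -/
theorem int_cosh (q p c : ℝ) (hq : 0 < q) (h : |p| + |c| < q) :
    IntegrableOn (fun τ : ℝ => Real.sinh (p * τ) / Real.sinh (q * τ) * Real.cosh (c * τ))
      (Set.Ioi 0) ∧
    ∫ τ in Set.Ioi (0 : ℝ), Real.sinh (p * τ) / Real.sinh (q * τ) * Real.cosh (c * τ)
      = Real.pi / (2 * q) * (Real.sin (Real.pi * p / q)
        / (Real.cos (Real.pi * c / q) + Real.cos (Real.pi * p / q))) := by
  have a1 := abs_add_le p c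
  have a2 := abs_sub p c
  have key := int_pc q hq p c (by simpa using a1.trans_lt h) (by simpa using a2.trans_lt h)
  have e : ∀ τ : ℝ, Complex.sinh ((p : ℂ) * τ) * Complex.cosh ((c : ℂ) * τ)
      / (Real.sinh (q * τ) : ℂ)
      = ((Real.sinh (p * τ) / Real.sinh (q * τ) * Real.cosh (c * τ) : ℝ) : ℂ) := by
    intro τ
    push_cast
    ring
  constructor
  · have h1 := key.1.re
    refine h1.congr (Eventually.of_forall fun τ => ?_)
    simp only [e]
    exact Complex.ofReal_re _
  · have h1 := key.2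
    simp only [e] at h1
    rw [integral_complex_ofReal] at h1
    have h2 : Real.pi / (2 * q) * (Complex.sin (Real.pi * p / q)
        / (Complex.cos (Real.pi * c / q) + Complex.cos (Real.pi * p / q)))
      = ((Real.pi / (2 * q) * (Real.sin (Real.pi * p / q)
        / (Real.cos (Real.pi * c / q) + Real.cos (Real.pi * p / q))) : ℝ) : ℂ) := by
      push_cast
      ring
    rw [h2] at h1
    exact_mod_cast h1

/-- real version, cosine -/
theorem int_cos (q p c : ℝ) (hq : 0 < q) (h : |p| < q) :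
    IntegrableOn (fun τ : ℝ => Real.sinh (p * τ) / Real.sinh (q * τ) * Real.cos (c * τ))
      (Set.Ioi 0) ∧
    ∫ τ in Set.Ioi (0 : ℝ), Real.sinh (p * τ) / Real.sinh (q * τ) * Real.cos (c * τ)
      = Real.pi / (2 * q) * (Real.sin (Real.pi * p / q)
        / (Real.cosh (Real.pi * c / q) + Real.cos (Real.pi * p / q))) := by
  have key := int_pc q hq p (c * I) (by simpa using h) (by simpa using h)
  have e : ∀ τ : ℝ, Complex.sinh ((p : ℂ) * τ) * Complex.cosh ((c : ℂ) * I * τ)
      / (Real.sinh (q * τ) : ℂ)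
      = ((Real.sinh (p * τ) / Real.sinh (q * τ) * Real.cos (c * τ) : ℝ) : ℂ) := by
    intro τ
    have h1 : (c : ℂ) * I * τ = ((c * τ : ℝ) : ℂ) * I := by
      push_cast
      ring
    rw [h1, Complex.cosh_mul_I]
    push_cast
    ring
  constructor
  · have h1 := key.1.re
    refine h1.congr (Eventually.of_forall fun τ => ?_)
    simp only [e]
    exact Complex.ofReal_re _
  · have h1 := key.2
    simp only [e] at h1
    rw [integral_complex_ofReal] at h1
    have h3 : (Real.pi : ℂ) * (c * I) / q = ((Real.pi * c / q : ℝ) : ℂ) * I := by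
      push_cast
      ring
    have h2 : Real.pi / (2 * q) * (Complex.sin (Real.pi * p / q)
        / (Complex.cos (Real.pi * (c * I) / q) + Complex.cos (Real.pi * p / q)))
      = ((Real.pi / (2 * q) * (Real.sin (Real.pi * p / q)
        / (Real.cosh (Real.pi * c / q) + Real.cos (Real.pi * p / q))) : ℝ) : ℂ) := by
      rw [h3, Complex.cos_mul_I]
      push_cast
      ring
    rw [h2] at h1
    exact_mod_cast h1

end Pool.Agent.AEU.H44
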