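import Pool.Agent.Helper60_AEU.Stmt
import Pool.Agent.Helper44_BLK.TanInt

/-!
Squad AEU, Part III, module FIN: closed forms of the main terms.
-/

namespace Pool.Agent.H60K.H44

open MeasureTheory Filter Topology Pool.Agent.H60K Pool.Agent.H38KL Pool.Agent.AEU.H12

/-- Fubini: integral of a weight against `Kit (2 τ) x` -/
theorem fub_kit (x : ℝ) (hx : 0 < x) (q p : ℝ) (hq : 0 < q) (hp : |p| < q) :
    IntegrableOn (fun τ => Real.sinh (p * τ) / Real.sinh (q * τ) * Kit (2 * τ) x) (Set.Ioi 0) ∧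
    ∫ τ in Set.Ioi (0 : ℝ), Real.sinh (p * τ) / Real.sinh (q * τ) * Kit (2 * τ) x
      = ∫ v in Set.Ioi (0 : ℝ), Real.exp (-(x * Real.cosh v)) *
        (Real.pi / (2 * q) * (Real.sin (Real.pi * p / q)
          / (Real.cosh (Real.pi * (2 * v) / q) + Real.cos (Real.pi * p / q)))) := by
  have hw := (AEU.H44.int_cos q p 0 hq hp).1
  simp only [zero_mul, Real.cos_zero, mul_one] at hw
  have he : IntegrableOn (fun v => Real.exp (-(x * Real.cosh v))) (Set.Ioi 0) :=
    (intg_exp_cosh hx).integrableOn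
  have hprod := Integrable.mul_prod hw he
  have hint : Integrable (fun z : ℝ × ℝ => Real.sinh (p * z.1) / Real.sinh (q * z.1)
      * Real.exp (-(x * Real.cosh z.2)) * Real.cos (2 * z.1 * z.2))
      ((volume.restrict (Set.Ioi 0)).prod (volume.restrict (Set.Ioi 0))) := by
    refine hprod.mul_bdd (c := 1) ?_ ?_
    · exact (by fun_prop : Continuous fun z : ℝ × ℝ =>
        Real.cos (2 * z.1 * z.2)).aestronglyMeasurable
    · exact Eventually.of_forall fun z => by
        rw [Real.norm_eq_abs]; exact Real.abs_cos_le_one _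
  have hK : ∀ τ : ℝ, Real.sinh (p * τ) / Real.sinh (q * τ) * Kit (2 * τ) x
      = ∫ v in Set.Ioi (0 : ℝ), Real.sinh (p * τ) / Real.sinh (q * τ)
        * Real.exp (-(x * Real.cosh v)) * Real.cos (2 * τ * v) := by
    intro τ
    unfold Kit
    rw [← integral_const_mul]
    refine integral_congr_ae (Eventually.of_forall fun v => ?_)
    show _ = _
    ring
  constructor
  · refine hint.integral_prod_left.congr (Eventually.of_forall fun τ => ?_)
    exact (hK τ).symm
  · simp only [hK]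
    rw [integral_integral_swap (f := fun τ v => Real.sinh (p * τ) / Real.sinh (q * τ)
        * Real.exp (-(x * Real.cosh v)) * Real.cos (2 * τ * v)) hint]
    refine integral_congr_ae (Eventually.of_forall fun v => ?_)
    have h1 := (AEU.H44.int_cos q p (2 * v) hq hp).2
    show ∫ τ in Set.Ioi (0 : ℝ), Real.sinh (p * τ) / Real.sinh (q * τ)
        * Real.exp (-(x * Real.cosh v)) * Real.cos (2 * τ * v)
      = Real.exp (-(x * Real.cosh v)) * (Real.pi / (2 * q) * (Real.sin (Real.pi * p / q)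
          / (Real.cosh (Real.pi * (2 * v) / q) + Real.cos (Real.pi * p / q))))
    rw [← h1, ← integral_const_mul]
    refine integral_congr_ae (Eventually.of_forall fun τ => ?_)
    show Real.sinh (p * τ) / Real.sinh (q * τ)
        * Real.exp (-(x * Real.cosh v)) * Real.cos (2 * τ * v) = Real.exp (-(x * Real.cosh v))
      * (Real.sinh (p * τ) / Real.sinh (q * τ) * Real.cos (2 * v * τ))
    have : 2 * τ * v = 2 * v * τ := by ring
    rw [this]
    ring

/-- integral of the diffraction kernel -/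
noncomputable def JK (b x : ℝ) : ℝ :=
  ∫ v in Set.Ioi (0 : ℝ), Real.exp (-(x * Real.cosh v)) * KKf b (2 * v)

theorem KKf_even (b u : ℝ) : KKf b (-u) = KKf b u := by
  unfold KKf
  have : b * -u = -(b * u) := by ring
  rw [this, Real.cosh_neg]

theorem KKf_cont {b : ℝ} (hb : Real.cos (b * Real.pi) ≠ 1) : Continuous (KKf b) := by
  unfold KKf
  refine Continuous.div (by fun_prop) (by fun_prop) fun u => ?_
  have h1 := CC_pos hb
  have h2 := den_pos (b := b) u
  linarith

theorem KKf_bdd {b : ℝ} (hb : Real.cos (b * Real.pi) ≠ 1) (u : ℝ) :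
    |KKf b u| ≤ |b / 2 * (-Real.sin (b * Real.pi))| / CC b := by
  have h1 := CC_pos hb
  have h2 := den_pos (b := b) u
  unfold KKf
  rw [abs_div, abs_of_pos (by linarith : 0 < Real.cosh (b * u) - Real.cos (b * Real.pi))]
  gcongr

theorem TB_eq (d b η κ : ℝ) (hd : 0 < d) (hκ : 0 < κ) (hb : Real.cos (b * Real.pi) ≠ 1) :
    TB d b η κ = 2 / Real.pi * (Ceta b η * Kit 0 (2 * κ * d) - JK b (2 * κ * d)) := by
  have hx : 0 < 2 * κ * d := by positivity
  set x := 2 * κ * d with hxdef
  have i1 : IntegrableOn (fun v => Real.exp (-(x * Real.cosh v))) (Set.Ioi 0) :=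
    (intg_exp_cosh hx).integrableOn
  have i2 : IntegrableOn (fun v => Real.exp (-(x * Real.cosh v)) * KKf b (2 * v)) (Set.Ioi 0) := by
    refine Integrable.mul_bdd (c := |b / 2 * (-Real.sin (b * Real.pi))| / CC b) i1 ?_ ?_
    · exact ((KKf_cont hb).comp (by fun_prop)).aestronglyMeasurable
    · exact Eventually.of_forall fun v => KKf_bdd hb _
  unfold TB JK Kit
  have e1 : ∀ v : ℝ, Real.exp (-(2 * κ * d * Real.cosh v)) * (Ceta b η - KKf b (2 * v))
      = (fun v : ℝ => Real.exp (-(x * Real.cosh v)) * (Ceta b η - KKf b (2 * v))) |v| := by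
    intro v
    rcases abs_choice v with h | h
    · rw [h]
    · rw [h]
      simp only [Real.cosh_neg]
      have : (2 : ℝ) * -v = -(2 * v) := by ring
      rw [this, KKf_even]
  simp only [e1]
  rw [integral_comp_abs (f := fun v : ℝ => Real.exp (-(x * Real.cosh v))
    * (Ceta b η - KKf b (2 * v)))]
  have e2 : ∫ v in Set.Ioi (0 : ℝ), Real.exp (-(x * Real.cosh v)) * (Ceta b η - KKf b (2 * v))
      = Ceta b η * (∫ v in Set.Ioi (0 : ℝ), Real.exp (-(x * Real.cosh v)) * Real.cos (0 * v))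
        - ∫ v in Set.Ioi (0 : ℝ), Real.exp (-(x * Real.cosh v)) * KKf b (2 * v) := by
    rw [← integral_const_mul, ← integral_sub (by simpa using i1.const_mul (Ceta b η)) i2]
    refine integral_congr_ae (Eventually.of_forall fun v => ?_)
    simp only [zero_mul, Real.cos_zero, mul_one]
    ring
  rw [e2]
  ring

theorem cos_b_ne {α : ℝ} (h0 : 0 < α) (h1 : α < Real.pi) (h2 : Real.pi / 3 < α)
    (hne : α ≠ Real.pi / 2) : Real.cos (Real.pi / α * Real.pi) ≠ 1 := by
  intro h
  rw [Real.cos_eq_one_iff] at h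
  obtain ⟨k, hk⟩ := h
  have hpi := Real.pi_pos
  have h3 : Real.pi / α = k * 2 := by
    have : (k : ℝ) * (2 * Real.pi) = k * 2 * Real.pi := by ring
    rw [this] at hk
    exact (mul_right_cancel₀ hpi.ne' hk).symm
  have h4 : 1 < Real.pi / α := by rwa [one_lt_div h0]
  have h5 : Real.pi / α < 3 := by
    rw [div_lt_iff₀ h0]
    linarith
  rw [h3] at h4 h5
  have h6 : (0 : ℝ) < k := by linarith
  have h7 : (k : ℝ) < 2 := by linarith
  have h8 : 0 < k := by exact_mod_cast h6
  have h9 : k < 2 := by exact_mod_cast h7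
  have h10 : k = 1 := by omega
  rw [h10] at h3
  push_cast at h3
  rw [div_eq_iff h0.ne'] at h3
  exact hne (by linarith)

/-- first integral -/
theorem first (η1 η2 α : ℝ) (hα : α = η1 + η2) (h0 : 0 < α)
    (h : |2 * α - Real.pi| + |η1 - η2| < α) :
    IntegrableOn (fun τ => Real.sinh ((2 * α - Real.pi) * τ) / Real.sinh (α * τ)
      * Real.cosh ((η1 - η2) * τ)) (Set.Ioi 0) ∧
    ∫ τ in Set.Ioi (0 : ℝ), Real.sinh ((2 * α - Real.pi) * τ) / Real.sinh (α * τ)
      * Real.cosh ((η1 - η2) * τ) = -Ceta (Real.pi / α) η2 := by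
  have key := AEU.H44.int_cosh α (2 * α - Real.pi) (η1 - η2) h0 h
  refine ⟨key.1, ?_⟩
  rw [key.2]
  have e1 : Real.pi * (2 * α - Real.pi) / α = 2 * Real.pi - Real.pi / α * Real.pi := by
    field_simp
  have e3 : Real.pi * (η1 - η2) / α = Real.pi - 2 * (Real.pi / α) * η2 := by
    rw [hα] at h0 ⊢
    field_simp
    ring
  rw [e1, e3, Real.sin_two_pi_sub, Real.cos_two_pi_sub, Real.cos_pi_sub]
  unfold Ceta
  rw [mul_div_assoc]
  have e4 : Real.pi / (2 * α) = Real.pi / α / 2 := by field_simp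
  rw [e4, ← mul_neg, ← div_neg]
  congr 2
  ring

/-- second integral, one large angle -/
theorem second (x α : ℝ) (hx : 0 < x) (h0 : Real.pi / 2 < α) (h1 : α < Real.pi) :
    IntegrableOn (fun τ => Real.sinh ((Real.pi - α) * τ) / Real.sinh (α * τ)
      * Kit (2 * τ) x) (Set.Ioi 0) ∧
    ∫ τ in Set.Ioi (0 : ℝ), Real.sinh ((Real.pi - α) * τ) / Real.sinh (α * τ)
      * Kit (2 * τ) x = JK (Real.pi / α) x := by
  have hpi := Real.pi_pos
  have hα : 0 < α := by linarith
  have key := fub_kit x hx α (Real.pi - α) hα (by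
    rw [abs_of_pos (by linarith)]
    linarith)
  refine ⟨key.1, ?_⟩
  rw [key.2]
  unfold JK
  refine integral_congr_ae (Eventually.of_forall fun v => ?_)
  show Real.exp (-(x * Real.cosh v)) * _ = Real.exp (-(x * Real.cosh v)) * _
  congr 1
  have e2 : Real.pi * (Real.pi - α) / α = Real.pi / α * Real.pi - Real.pi := by
    field_simp
  have e4 : Real.pi * (2 * v) / α = Real.pi / α * (2 * v) := by ring
  rw [e2, e4, Real.sin_sub_pi, Real.cos_sub_pi]
  unfold KKf
  rw [mul_div_assoc]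
  have e5 : Real.pi / (2 * α) = Real.pi / α / 2 := by field_simp
  rw [e5]
  congr 2

/-- second integral, acute angle -/
theorem second' (hkts : KtsStatement) (x α : ℝ) (hx : 0 < x) (h0 : Real.pi / 3 < α)
    (h1 : α < Real.pi / 2) :
    IntegrableOn (fun τ => Real.sinh ((Real.pi - α) * τ) / Real.sinh (α * τ)
      * Kit (2 * τ) x) (Set.Ioi 0) ∧
    ∫ τ in Set.Ioi (0 : ℝ), Real.sinh ((Real.pi - α) * τ) / Real.sinh (α * τ)
      * Kit (2 * τ) x = Real.pi / 2 * Real.exp (-(x * Real.sin α)) + JK (Real.pi / α) x := by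
  have hpi := Real.pi_pos
  have hα : 0 < α := by linarith
  have key := fub_kit x hx α (3 * α - Real.pi) hα (by
    rw [abs_lt]
    constructor <;> linarith)
  have hk := hkts.2.2 x (Real.pi / 2 - α) hx (by
    rw [abs_lt]
    constructor <;> linarith)
  -- the substitution
  have i1 : IntegrableOn (fun τ : ℝ => 2 * (Kit (2 * τ) x * Real.cosh ((Real.pi / 2 - α) * (2 * τ))))
      (Set.Ioi 0) := by
    refine Integrable.const_mul ?_ 2
    exact (integrableOn_Ioi_comp_mul_left_iff
      (fun s : ℝ => Kit s x * Real.cosh ((Real.pi / 2 - α) * s)) 0 two_pos).mpr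
      (by rw [mul_zero]; exact hk.1)
  have v1 : ∫ τ in Set.Ioi (0 : ℝ), 2 * (Kit (2 * τ) x
      * Real.cosh ((Real.pi / 2 - α) * (2 * τ))) = Real.pi / 2 * Real.exp (-(x * Real.sin α)) := by
    rw [integral_const_mul, integral_comp_mul_left_Ioi
      (fun s : ℝ => Kit s x * Real.cosh ((Real.pi / 2 - α) * s)) 0 two_pos, mul_zero, hk.2,
      Real.cos_pi_div_two_sub, smul_eq_mul]
    ring
  have e : ∀ τ ∈ Set.Ioi (0 : ℝ), Real.sinh ((Real.pi - α) * τ) / Real.sinh (α * τ)
      * Kit (2 * τ) x = 2 * (Kit (2 * τ) x * Real.cosh ((Real.pi / 2 - α) * (2 * τ)))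
        - Real.sinh ((3 * α - Real.pi) * τ) / Real.sinh (α * τ) * Kit (2 * τ) x := by
    intro τ hτ
    have hτ' : (0 : ℝ) < τ := hτ
    have hs : Real.sinh (α * τ) ≠ 0 := (Real.sinh_pos_iff.mpr (by positivity)).ne'
    have a1 : Real.sinh ((Real.pi - α) * τ) + Real.sinh ((3 * α - Real.pi) * τ)
        = 2 * Real.cosh ((Real.pi / 2 - α) * (2 * τ)) * Real.sinh (α * τ) := by
      have b1 : (Real.pi - α) * τ = α * τ + (Real.pi / 2 - α) * (2 * τ) := by ring
      have b2 : (3 * α - Real.pi) * τ = α * τ - (Real.pi / 2 - α) * (2 * τ) := by ring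
      rw [b1, b2, Real.sinh_add, Real.sinh_sub]
      ring
    have a2 : Real.sinh ((Real.pi - α) * τ) = 2 * Real.cosh ((Real.pi / 2 - α) * (2 * τ))
        * Real.sinh (α * τ) - Real.sinh ((3 * α - Real.pi) * τ) := by linarith
    rw [a2]
    field_simp
  have e' : ∀ τ ∈ Set.Ioi (0 : ℝ), 2 * (Kit (2 * τ) x * Real.cosh ((Real.pi / 2 - α) * (2 * τ)))
        - Real.sinh ((3 * α - Real.pi) * τ) / Real.sinh (α * τ) * Kit (2 * τ) x
        = Real.sinh ((Real.pi - α) * τ) / Real.sinh (α * τ) * Kit (2 * τ) x := fun τ hτ =>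
    (e τ hτ).symm
  constructor
  · exact (i1.sub key.1).congr_fun e' measurableSet_Ioi
  · rw [setIntegral_congr_fun measurableSet_Ioi e, integral_sub i1 key.1, v1, key.2,
      sub_eq_add_neg]
    congr 1
    unfold JK
    rw [← integral_neg]
    refine integral_congr_ae (Eventually.of_forall fun v => ?_)
    show -(Real.exp (-(x * Real.cosh v)) * _) = Real.exp (-(x * Real.cosh v)) * _
    rw [← mul_neg]
    congr 1
    have e2 : Real.pi * (3 * α - Real.pi) / α
        = Real.pi - Real.pi / α * Real.pi + 2 * Real.pi := by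
      field_simp
      ring
    have e4 : Real.pi * (2 * v) / α = Real.pi / α * (2 * v) := by ring
    rw [e2, e4, Real.sin_add_two_pi, Real.cos_add_two_pi, Real.sin_pi_sub, Real.cos_pi_sub]
    unfold KKf
    rw [mul_div_assoc]
    have e5 : Real.pi / (2 * α) = Real.pi / α / 2 := by field_simp
    rw [e5, ← mul_neg, ← neg_div]
    congr 2

/-- third integral -/
theorem third (η1 η2 α : ℝ) (hα : α = η1 + η2) (h1 : Real.pi / 2 < η1) (h2 : 0 < η2)
    (h3 : α < Real.pi) :
    IntegrableOn (fun τ => Real.sinh ((Real.pi - α) * τ) / Real.sinh (α * τ)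
      * Real.cosh (2 * η2 * τ)) (Set.Ioi 0) ∧
    ∫ τ in Set.Ioi (0 : ℝ), Real.sinh ((Real.pi - α) * τ) / Real.sinh (α * τ)
      * Real.cosh (2 * η2 * τ) = Ceta (Real.pi / α) η2 := by
  have hpi := Real.pi_pos
  have h0 : 0 < α := by linarith
  have key := AEU.H44.int_cosh α (Real.pi - α) (2 * η2) h0 (by
    rw [abs_of_pos (by linarith), abs_of_pos (by linarith)]
    linarith)
  refine ⟨key.1, ?_⟩
  rw [key.2]
  have e2 : Real.pi * (Real.pi - α) / α = Real.pi / α * Real.pi - Real.pi := by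
    field_simp
  have e3 : Real.pi * (2 * η2) / α = 2 * (Real.pi / α) * η2 := by ring
  rw [e2, e3, Real.sin_sub_pi, Real.cos_sub_pi]
  unfold Ceta
  rw [mul_div_assoc]
  have e4 : Real.pi / (2 * α) = Real.pi / α / 2 := by field_simp
  rw [e4]
  congr 2

theorem FS_eq (η1 η2 d κ : ℝ) (x α : ℝ) (hx : x = 2 * κ * d) (hα : α = η1 + η2) (h0 : 0 < α)
    (h : |2 * α - Real.pi| + |η1 - η2| < α) (V : ℝ)
    (h2 : IntegrableOn (fun τ => Real.sinh ((Real.pi - α) * τ) / Real.sinh (α * τ)
      * Kit (2 * τ) x) (Set.Ioi 0) ∧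
      ∫ τ in Set.Ioi (0 : ℝ), Real.sinh ((Real.pi - α) * τ) / Real.sinh (α * τ)
      * Kit (2 * τ) x = V) :
    FS η1 η2 d κ = 2 / Real.pi * (-Ceta (Real.pi / α) η2 * Kit 0 x + V) := by
  unfold FS
  rw [← hα, ← hx]
  have key := first η1 η2 α hα h0 h
  rw [integral_add (key.1.mul_const _) h2.1, integral_mul_const, key.2, h2.2]

/-- module FIN -/
theorem fin (hkts : KtsStatement) : FinStatement := by
  have hpi := Real.pi_pos
  refine ⟨?_, ?_, ?_⟩
  · intro η1 η2 d κ a1 a2 a3 a4 hd hκ hα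
    have hlt : η1 + η2 < Real.pi := by linarith
    have h0 : 0 < η1 + η2 := by linarith
    rw [FS_eq η1 η2 d κ (2 * κ * d) (η1 + η2) rfl rfl h0 ?_ _
      (second (2 * κ * d) (η1 + η2) (by positivity) hα hlt),
      TB_eq d _ η2 κ hd hκ (cos_b_ne h0 hlt (by linarith) hα.ne')]
    · ring
    · rw [abs_of_pos (by linarith : 0 < 2 * (η1 + η2) - Real.pi)]
      have : |η1 - η2| < Real.pi - (η1 + η2) := by
        rw [abs_lt]
        constructor <;> linarith
      linarith
  · intro η1 η2 d κ a1 a2 a3 a4 hd hκ hα hs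
    have hlt : η1 + η2 < Real.pi := by linarith
    have h0 : 0 < η1 + η2 := by linarith
    have hab := abs_nonneg (η1 - η2)
    have h3 : Real.pi / 3 < η1 + η2 := by linarith
    rw [FS_eq η1 η2 d κ (2 * κ * d) (η1 + η2) rfl rfl h0 ?_ _
      (second' hkts (2 * κ * d) (η1 + η2) (by positivity) h3 hα),
      TB_eq d _ η2 κ hd hκ (cos_b_ne h0 hlt h3 hα.ne)]
    · have e : -(2 * d * Real.sin (η1 + η2) * κ) = -(2 * κ * d * Real.sin (η1 + η2)) := by ring
      rw [e]
      field_simp
      ring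
    · rw [abs_of_neg (by linarith : 2 * (η1 + η2) - Real.pi < 0)]
      linarith
  · intro η1 η2 d κ a1 a2 a3 hd hκ
    have h0 : 0 < η1 + η2 := by linarith
    have hα : Real.pi / 2 < η1 + η2 := by linarith
    rw [TB_eq d _ η2 κ hd hκ (cos_b_ne h0 a3 (by linarith) hα.ne')]
    unfold FN
    have k1 := third η1 η2 (η1 + η2) rfl a1 a2 a3
    have k2 := second (2 * κ * d) (η1 + η2) (by positivity) hα a3
    have e : ∀ τ : ℝ, Real.sinh ((Real.pi - (η1 + η2)) * τ) / Real.sinh ((η1 + η2) * τ)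
        * (Real.cosh (2 * η2 * τ) * Kit 0 (2 * κ * d) - Kit (2 * τ) (2 * κ * d))
        = Real.sinh ((Real.pi - (η1 + η2)) * τ) / Real.sinh ((η1 + η2) * τ)
          * Real.cosh (2 * η2 * τ) * Kit 0 (2 * κ * d)
          - Real.sinh ((Real.pi - (η1 + η2)) * τ) / Real.sinh ((η1 + η2) * τ)
            * Kit (2 * τ) (2 * κ * d) := by
      intro τ
      ring
    simp only [e]
    rw [integral_sub (k1.1.mul_const _) k2.1, integral_mul_const, k1.2, k2.2]

end Pool.Agent.H60K.H44
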