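import Mathlib

/-!
Squad AEU, Part III: almost additive functions on an interval are almost linear (Hyers).
-/

namespace Pool.Agent.AEU.H44

/-- an almost additive bounded function on `(0, b]` which vanishes at `b` is small -/
theorem hyers_zero (g : ℝ → ℝ) (b δ C : ℝ) (hb : 0 < b)
    (hC : ∀ a, 0 < a → a ≤ b → |g a| ≤ C) (h0 : g b = 0)
    (h : ∀ a a', 0 < a → 0 < a' → a + a' ≤ b → |g (a + a') - g a - g a'| ≤ δ) :
    ∀ a, 0 < a → a ≤ b → |g a| ≤ 3 * δ := by
  set S : Set ℝ := (fun a => |g a|) '' Set.Ioc 0 b with hS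
  have hbdd : BddAbove S := ⟨C, by rintro _ ⟨a, ha, rfl⟩; exact hC a ha.1 ha.2⟩
  have hne : S.Nonempty := ⟨_, b, ⟨hb, le_rfl⟩, rfl⟩
  have hle : ∀ a, 0 < a → a ≤ b → |g a| ≤ sSup S := fun a h1 h2 =>
    le_csSup hbdd ⟨a, ⟨h1, h2⟩, rfl⟩
  have hδ : 0 ≤ δ := (abs_nonneg _).trans (h (b / 2) (b / 2) (by linarith) (by linarith)
    (by linarith))
  have key : sSup S ≤ 3 * δ := by
    by_contra hc
    push Not at hc
    obtain ⟨_, ⟨a, ha, rfl⟩, hlt⟩ := exists_lt_of_lt_csSup hne
      (show sSup S - (sSup S - 3 * δ) / 4 < sSup S by linarith)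
    simp only at hlt
    have dbl : ∀ c, 0 < c → c ≤ b / 2 → 2 * |g c| ≤ sSup S + δ := by
      intro c hc0 hc1
      have h1 := h c c hc0 hc0 (by linarith)
      have h2 := hle (c + c) (by linarith) (by linarith)
      have h3 : |2 * g c| ≤ |g (c + c)| + |g (c + c) - g c - g c| := by
        have : 2 * g c = g (c + c) - (g (c + c) - g c - g c) := by ring
        rw [this]
        exact abs_sub _ _
      rw [abs_mul, abs_of_pos (by norm_num : (0 : ℝ) < 2)] at h3
      linarith
    rcases le_or_gt a (b / 2) with h1 | h1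
    · have := dbl a ha.1 h1
      linarith
    · rcases eq_or_lt_of_le ha.2 with h2 | h2
      · rw [h2, h0, abs_zero] at hlt
        linarith
      · have h3 := dbl (b - a) (by linarith) (by linarith)
        have h4 := h a (b - a) ha.1 (by linarith) (by linarith)
        have h5 : |g a| ≤ |g (a + (b - a)) - g a - g (b - a)| + |g (b - a)| := by
          have e : g a = -((g (a + (b - a)) - g a - g (b - a)) + g (b - a)) := by
            have : a + (b - a) = b := by ring
            rw [this, h0]
            ring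
          calc |g a| = |-((g (a + (b - a)) - g a - g (b - a)) + g (b - a))| := by rw [← e]
            _ ≤ _ := by rw [abs_neg]; exact abs_add_le _ _
        linarith
  intro a h1 h2
  exact (hle a h1 h2).trans key

/-- **Hyers**: almost additive bounded functions on `(0, b]` are almost linear -/
theorem hyers (T : ℝ → ℝ) (b δ C : ℝ) (hb : 0 < b)
    (hC : ∀ a, 0 < a → a ≤ b → |T a| ≤ C)
    (h : ∀ a a', 0 < a → 0 < a' → a + a' ≤ b → |T (a + a') - T a - T a'| ≤ δ) :
    ∀ a, 0 < a → a ≤ b → |T a - a / b * T b| ≤ 3 * δ := by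
  apply hyers_zero (fun a => T a - a / b * T b) b δ (C + C) hb
  · intro a h1 h2
    have e1 := hC a h1 h2
    have e2 := hC b hb le_rfl
    have e3 : |a / b * T b| ≤ C := by
      rw [abs_mul, abs_of_pos (div_pos h1 hb)]
      have : a / b ≤ 1 := (div_le_one hb).mpr h2
      nlinarith [abs_nonneg (T b), div_pos h1 hb]
    exact (abs_sub _ _).trans (add_le_add e1 e3)
  · simp [hb.ne']
  · intro a a' h1 h2 h3
    have : T (a + a') - (a + a') / b * T b - (T a - a / b * T b) - (T a' - a' / b * T b)
        = T (a + a') - T a - T a' := by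
      field_simp
      ring
    rw [this]
    exact h a a' h1 h2 h3

end Pool.Agent.AEU.H44
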