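import Pool.Agent.Helper60_AEU.Stmt
import Pool.Agent.Helper44_BLK.Psg
import Pool.Agent.Helper44_BLK.Hyers

/-!
Squad AEU, Part III, modules SGR, UNI, HYE.
-/

namespace Pool.Agent.H60K.H44

open MeasureTheory Filter Topology Pool.Agent.H62T Pool.Agent.H16F Pool.Agent.H60K

/-- module SGR -/
theorem sgr : SgrStatement := fun _ _ _ x y hD hs ht => AEU.H44.pD_add hD hs ht x y

theorem ker_univ (m : ℕ) : ∀ t : ℝ, 0 < t → ∀ x y, Ker Set.univ m t x y = G t (x - y) := by
  induction m with
  | zero =>
    intro t _ x y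
    show Set.univ.indicator (fun _ => (1 : ℝ)) x * Set.univ.indicator (fun _ => (1 : ℝ)) y
      * G t (x - y) = G t (x - y)
    simp
  | succ m ih =>
    intro t ht x y
    show ∫ z, Ker Set.univ m (t / 2) x z * Ker Set.univ m (t / 2) z y = G t (x - y)
    rw [← H41.G_conv t ht x y]
    refine integral_congr_ae (Eventually.of_forall fun z => ?_)
    show Ker Set.univ m (t / 2) x z * Ker Set.univ m (t / 2) z y = _
    rw [ih _ (half_pos ht), ih _ (half_pos ht)]

/-- module UNI -/
theorem uni : UniStatement := by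
  intro t x y ht
  unfold pD
  simp only [ker_univ _ t ht, ciInf_const]

/-- module HYE -/
theorem hye : HyeStatement := fun f T ε M hT hM h => AEU.H44.hyers f T ε M hT hM h

end Pool.Agent.H60K.H44
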