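import Pool.Agent.Helper44_BLK.Lab

/-!
Squad AEU, Part III, module BLV: the loops cut into blocks.
-/

namespace Pool.Agent.H60K.H44

open MeasureTheory Complex Filter Topology Pool.Agent.H62T Pool.Agent.H16F Pool.Agent.H60K
open scoped ENNReal NNReal

variable (u : Fin 3 → ℂ) (h : Fin 3 → ℝ)

theorem kA_meas_comp {α : Type*} [MeasurableSpace α] (A : Finset (Fin 3)) {f : α → ℝ}
    {g k : α → ℂ} (hf : Measurable f) (hg : Measurable g) (hk : Measurable k) :
    Measurable fun a => kA u h A (f a) (g a) (k a) := by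
  have := Measurable.comp (g := fun p : ℝ × ℂ × ℂ => kA u h A p.1 p.2.1 p.2.2)
    (f := fun a => (f a, g a, k a)) (kA_meas u h A) (hf.prodMk (hg.prodMk hk))
  exact this

theorem kA_meas_r (A : Finset (Fin 3)) (t : ℝ) (x : ℂ) : Measurable fun y => kA u h A t x y :=
  kA_meas_comp u h A measurable_const measurable_const measurable_id

theorem kA_meas_l (A : Finset (Fin 3)) (t : ℝ) (y : ℂ) : Measurable fun x => kA u h A t x y :=
  kA_meas_comp u h A measurable_const measurable_id measurable_const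

theorem kA_int2 (A₁ A₂ : Finset (Fin 3)) {s r : ℝ} (hs : 0 < s) (hr : 0 < r) (x y : ℂ) :
    Integrable fun z => kA u h A₁ s x z * kA u h A₂ r z y := by
  refine (AEU.H44.G_int2 hs hr x y).mono' ?_ (Eventually.of_forall fun z => ?_)
  · exact ((kA_meas_r u h A₁ s x).mul (kA_meas_l u h A₂ r y)).aestronglyMeasurable
  · have h1 := kA_nonneg u h hs x z A₁
    have h2 := kA_nonneg u h hr z y A₂
    rw [Real.norm_of_nonneg (mul_nonneg h1 h2)]
    exact mul_le_mul (kA_le_pB u h A₁ hs x z) (kA_le_pB u h A₂ hr z y) h2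
      (AEU.H44.G_nonneg hs _)

/-- the product rule for label kernels -/
theorem kA_add (A : Finset (Fin 3)) {s r : ℝ} (hs : 0 < s) (hr : 0 < r) (x y : ℂ) :
    kA u h A (s + r) x y = ∑ A₁, ∑ A₂,
      if A₁ ∪ A₂ = A then ∫ z, kA u h A₁ s x z * kA u h A₂ r z y else 0 := by
  have e1 : kA u h A (s + r) x y
      = mob (fun B => ∫ z, pB u h B s x z * pB u h B r z y) A := by
    show mob (fun B => pB u h B (s + r) x y) A = _
    congr 1
    funext B
    exact AEU.H44.pD_add (dm_open u h B) hs hr x y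
  rw [e1, mob_integral (fun B z => pB u h B s x z * pB u h B r z y)
    (fun B => AEU.H44.pD_int2 (dm_open u h B) hs hr x y)]
  have e2 : ∀ z, mob (fun B => pB u h B s x z * pB u h B r z y) A
      = ∑ A₁, ∑ A₂, if A₁ ∪ A₂ = A then kA u h A₁ s x z * kA u h A₂ r z y else 0 := fun z =>
    mob_mul (fun B => pB u h B s x z) (fun B => pB u h B r z y) A
  simp only [e2]
  have hi : ∀ A₁ A₂ : Finset (Fin 3), Integrable fun z =>
      if A₁ ∪ A₂ = A then kA u h A₁ s x z * kA u h A₂ r z y else 0 := by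
    intro A₁ A₂
    split_ifs
    · exact kA_int2 u h A₁ A₂ hs hr x y
    · exact integrable_zero _ _ _
  rw [integral_finsetSum _ fun A₁ _ => integrable_finsetSum _ fun A₂ _ => hi A₁ A₂]
  refine Finset.sum_congr rfl fun A₁ _ => ?_
  rw [integral_finsetSum _ fun A₂ _ => hi A₁ A₂]
  refine Finset.sum_congr rfl fun A₂ _ => ?_
  split_ifs
  · rfl
  · exact integral_zero _ _

/-- union of the labels -/
def un {n : ℕ} (A : Fin n → Finset (Fin 3)) : Finset (Fin 3) := Finset.univ.biUnion A

theorem un_cons {n : ℕ} (a : Finset (Fin 3)) (A : Fin n → Finset (Fin 3)) :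
    un (Fin.cons a A : Fin (n + 1) → Finset (Fin 3)) = a ∪ un A := by
  ext s
  simp [un, Fin.exists_fin_succ]

theorem lint_cons {m : ℕ} (F : (Fin (m + 1) → ℂ) → ℝ≥0∞) (hF : Measurable F) :
    ∫⁻ z, F z = ∫⁻ z0 : ℂ, ∫⁻ z : Fin m → ℂ, F (Fin.cons z0 z) := by
  have hp := (volume_preserving_piFinSuccAbove (fun _ : Fin (m + 1) => ℂ) 0).symm
  rw [← hp.lintegral_comp_emb (MeasurableEquiv.measurableEmbedding _), Measure.volume_eq_prod,
    lintegral_prod]
  · refine lintegral_congr fun z0 => lintegral_congr fun z => ?_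
    congr 1
    show (Fin.insertNth (α := fun _ => ℂ) 0 z0 z : Fin (m + 1) → ℂ) = Fin.cons z0 z
    rw [Fin.insertNth_zero]
    rfl
  · exact (hF.comp (MeasurableEquiv.measurable _)).aemeasurable

theorem sum_cons {m : ℕ} {β : Type} [AddCommMonoid β] (f : (Fin (m + 1) → Finset (Fin 3)) → β) :
    ∑ A, f A = ∑ a, ∑ A : Fin m → Finset (Fin 3), f (Fin.cons a A) := by
  rw [← Fintype.sum_prod_type' (f := fun a A => f (Fin.cons a A))]
  symm
  exact Equiv.sum_comp (Fin.consEquiv fun _ : Fin (m + 1) => Finset (Fin 3)) f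

/-- weight of a chain -/
noncomputable def cw {m : ℕ} (τ : Fin (m + 1) → ℝ) (A : Fin (m + 1) → Finset (Fin 3)) (x : ℂ)
    (z : Fin m → ℂ) (y : ℂ) : ℝ≥0∞ :=
  ∏ j, ENNReal.ofReal (kA u h (A j) (τ j) ((Fin.cons x z : Fin (m + 1) → ℂ) j)
    ((Fin.snoc z y : Fin (m + 1) → ℂ) j))

theorem cw_meas {m : ℕ} (τ : Fin (m + 1) → ℝ) (A : Fin (m + 1) → Finset (Fin 3)) :
    Measurable fun p : ℂ × (Fin m → ℂ) × ℂ => cw u h τ A p.1 p.2.1 p.2.2 := by
  unfold cw
  refine Finset.measurable_fun_prod _ fun j _ => ?_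
  refine ENNReal.measurable_ofReal.comp ?_
  have h1 : Measurable fun p : ℂ × (Fin m → ℂ) × ℂ =>
      (Fin.cons p.1 p.2.1 : Fin (m + 1) → ℂ) j := by
    refine Fin.cases ?_ (fun i => ?_) j
    · simp only [Fin.cons_zero]
      fun_prop
    · simp only [Fin.cons_succ]
      fun_prop
  have h2 : Measurable fun p : ℂ × (Fin m → ℂ) × ℂ =>
      (Fin.snoc p.2.1 p.2.2 : Fin (m + 1) → ℂ) j := by
    refine Fin.lastCases ?_ (fun i => ?_) j
    · simp only [Fin.snoc_last]
      fun_prop
    · simp only [Fin.snoc_castSucc]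
      fun_prop
  exact kA_meas_comp u h (A j) measurable_const h1 h2

theorem cw_meas_comp {α : Type*} [MeasurableSpace α] {m : ℕ} (τ : Fin (m + 1) → ℝ)
    (A : Fin (m + 1) → Finset (Fin 3)) {f k : α → ℂ} {g : α → Fin m → ℂ} (hf : Measurable f)
    (hg : Measurable g) (hk : Measurable k) : Measurable fun a => cw u h τ A (f a) (g a) (k a) := by
  have := Measurable.comp (g := fun p : ℂ × (Fin m → ℂ) × ℂ => cw u h τ A p.1 p.2.1 p.2.2)
    (f := fun a => (f a, g a, k a)) (cw_meas u h τ A) (hf.prodMk (hg.prodMk hk))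
  exact this

theorem cw_succ {m : ℕ} (τ : Fin (m + 2) → ℝ) (a : Finset (Fin 3))
    (A : Fin (m + 1) → Finset (Fin 3)) (x z0 : ℂ) (z : Fin m → ℂ) (y : ℂ) :
    cw u h τ (Fin.cons a A) x (Fin.cons z0 z) y
      = ENNReal.ofReal (kA u h a (τ 0) x z0) * cw u h (fun j => τ j.succ) A z0 z y := by
  unfold cw
  rw [Fin.prod_univ_succ]
  congr 1
  · have e : (Fin.snoc (Fin.cons z0 z : Fin (m + 1) → ℂ) y : Fin (m + 2) → ℂ)
        = Fin.cons z0 (Fin.snoc z y : Fin (m + 1) → ℂ) :=
      (Fin.cons_snoc_eq_snoc_cons z0 z y).symm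
    rw [e]
    simp

/-- label kernels as sums over chains -/
theorem chain (m : ℕ) : ∀ (τ : Fin (m + 1) → ℝ), (∀ j, 0 < τ j) → ∀ (A₀ : Finset (Fin 3))
    (x y : ℂ), ENNReal.ofReal (kA u h A₀ (∑ j, τ j) x y)
      = ∑ A : Fin (m + 1) → Finset (Fin 3),
        if un A = A₀ then ∫⁻ z : Fin m → ℂ, cw u h τ A x z y else 0 := by
  induction m with
  | zero =>
    intro τ hτ A₀ x y
    have e1 : ∀ A : Fin 1 → Finset (Fin 3), un A = A 0 := by
      intro A
      ext s
      simp [un]
    have e2 : ∀ A : Fin 1 → Finset (Fin 3), ∫⁻ z : Fin 0 → ℂ, cw u h τ A x z y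
        = ENNReal.ofReal (kA u h (A 0) (τ 0) x y) := by
      intro A
      rw [lintegral_unique]
      unfold cw
      have hv : volume (Set.univ : Set (Fin 0 → ℂ)) = 1 := by
        rw [Measure.volume_pi_eq_dirac default]
        simp
      rw [hv, mul_one]
      simp [Fin.snoc]
    simp only [e1, e2]
    rw [sum_cons]
    simp
  | succ m ih =>
    intro τ hτ A₀ x y
    have hsum : ∑ j, τ j = τ 0 + ∑ j : Fin (m + 1), τ j.succ := Fin.sum_univ_succ τ
    have hpos : 0 < ∑ j : Fin (m + 1), τ j.succ :=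
      Finset.sum_pos (fun j _ => hτ _) Finset.univ_nonempty
    rw [hsum, kA_add u h A₀ (hτ 0) hpos x y, sum_cons]
    have hnn : ∀ A₁ A₂ : Finset (Fin 3), 0 ≤ if A₁ ∪ A₂ = A₀ then
        ∫ z, kA u h A₁ (τ 0) x z * kA u h A₂ (∑ j : Fin (m + 1), τ j.succ) z y else 0 := by
      intro A₁ A₂
      split_ifs
      · exact integral_nonneg fun z => mul_nonneg (kA_nonneg u h (hτ 0) x z A₁)
          (kA_nonneg u h hpos z y A₂)
      · exact le_rfl
    rw [ENNReal.ofReal_sum_of_nonneg fun A₁ _ => Finset.sum_nonneg fun A₂ _ => hnn A₁ A₂]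
    refine Finset.sum_congr rfl fun A₁ _ => ?_
    rw [ENNReal.ofReal_sum_of_nonneg fun A₂ _ => hnn A₁ A₂]
    -- the integral for fixed labels
    have e1 : ∀ A₂, ENNReal.ofReal (∫ z, kA u h A₁ (τ 0) x z
        * kA u h A₂ (∑ j : Fin (m + 1), τ j.succ) z y)
        = ∑ A : Fin (m + 1) → Finset (Fin 3), if un A = A₂ then
          ∫⁻ z : Fin (m + 1) → ℂ, cw u h τ (Fin.cons A₁ A) x z y else 0 := by
      intro A₂
      rw [ofReal_integral_eq_lintegral_ofReal (kA_int2 u h A₁ A₂ (hτ 0) hpos x y)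
        (Eventually.of_forall fun z => mul_nonneg (kA_nonneg u h (hτ 0) x z A₁)
          (kA_nonneg u h hpos z y A₂))]
      have e2 : ∀ z, ENNReal.ofReal (kA u h A₁ (τ 0) x z
          * kA u h A₂ (∑ j : Fin (m + 1), τ j.succ) z y)
          = ∑ A : Fin (m + 1) → Finset (Fin 3), if un A = A₂ then
            ∫⁻ z' : Fin m → ℂ, cw u h τ (Fin.cons A₁ A) x (Fin.cons z z') y else 0 := by
        intro z
        rw [ENNReal.ofReal_mul (kA_nonneg u h (hτ 0) x z A₁),
          ih (fun j => τ j.succ) (fun j => hτ _) A₂ z y, Finset.mul_sum]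
        refine Finset.sum_congr rfl fun A _ => ?_
        rw [mul_ite, mul_zero]
        refine if_congr Iff.rfl ?_ rfl
        rw [← lintegral_const_mul' _ _ ENNReal.ofReal_ne_top]
        exact lintegral_congr fun z' => (cw_succ u h τ A₁ A x z z' y).symm
      simp only [e2]
      rw [lintegral_finsetSum]
      · refine Finset.sum_congr rfl fun A _ => ?_
        split_ifs
        · rw [lint_cons]
          exact cw_meas_comp u h τ _ measurable_const measurable_id measurable_const
        · exact lintegral_zero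
      · intro A _
        split_ifs
        · have hm : Measurable fun p : ℂ × (Fin m → ℂ) =>
              cw u h τ (Fin.cons A₁ A) x (Fin.cons p.1 p.2) y := by
            have h1 : Measurable fun p : ℂ × (Fin m → ℂ) =>
                (Fin.cons p.1 p.2 : Fin (m + 1) → ℂ) := by
              rw [measurable_pi_iff]
              intro j
              refine Fin.cases ?_ (fun i => ?_) j
              · simp only [Fin.cons_zero]
                fun_prop
              · simp only [Fin.cons_succ]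
                fun_prop
            exact cw_meas_comp u h τ _ measurable_const h1 measurable_const
          exact hm.lintegral_prod_right'
        · exact measurable_const
    have e3 : ∀ A₂, ENNReal.ofReal (if A₁ ∪ A₂ = A₀ then ∫ z, kA u h A₁ (τ 0) x z
        * kA u h A₂ (∑ j : Fin (m + 1), τ j.succ) z y else 0)
        = ∑ A : Fin (m + 1) → Finset (Fin 3), if un A = A₂ then
          (if A₁ ∪ un A = A₀ then
            ∫⁻ z : Fin (m + 1) → ℂ, cw u h τ (Fin.cons A₁ A) x z y else 0) else 0 := by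
      intro A₂
      split_ifs with hA
      · rw [e1 A₂]
        refine Finset.sum_congr rfl fun A _ => ?_
        split_ifs with h1 h2
        · rfl
        · exact absurd (by rw [h1]; exact hA) h2
        · rfl
      · rw [ENNReal.ofReal_zero]
        symm
        refine Finset.sum_eq_zero fun A _ => ?_
        split_ifs with h1 h2
        · exact absurd (by rw [h1] at h2; exact h2) hA
        · rfl
        · rfl
    simp only [e3]
    rw [Finset.sum_comm]
    refine Finset.sum_congr rfl fun A _ => ?_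
    rw [Finset.sum_ite_eq, if_pos (Finset.mem_univ _), un_cons]

theorem vis_iff {n : ℕ} (M E : Finset (Fin 3)) (A : Fin n → Finset (Fin 3)) :
    Vis M E A ↔ un A ∈ (Eᶜ).powerset.filter (fun A => M ⊆ A) := by
  rw [Finset.mem_filter, Finset.mem_powerset]
  unfold Vis un
  constructor
  · rintro ⟨h1, h2⟩
    refine ⟨?_, ?_⟩
    · intro s hs
      obtain ⟨j, -, hj⟩ := Finset.mem_biUnion.mp hs
      rw [Finset.mem_compl]
      exact fun hE => (Finset.disjoint_left.mp (h2 j)) hj hE
    · intro s hs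
      obtain ⟨j, hj⟩ := h1 s hs
      exact Finset.mem_biUnion.mpr ⟨j, Finset.mem_univ _, hj⟩
  · rintro ⟨h1, h2⟩
    refine ⟨fun s hs => ?_, fun j => ?_⟩
    · obtain ⟨j, -, hj⟩ := Finset.mem_biUnion.mp (h2 hs)
      exact ⟨j, hj⟩
    · rw [Finset.disjoint_left]
      intro s hs hE
      exact Finset.mem_compl.mp (h1 (Finset.mem_biUnion.mpr ⟨j, Finset.mem_univ _, hs⟩)) hE

/-- a cyclic chain -/
theorem cw_cyc {m : ℕ} (τ : Fin (m + 1) → ℝ) (hτ : ∀ j, 0 < τ j)
    (A : Fin (m + 1) → Finset (Fin 3)) (x : ℂ) (z : Fin m → ℂ) :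
    cw u h τ A x z x = ENNReal.ofReal (wt u h τ (Fin.cons x z : Fin (m + 1) → ℂ) A) := by
  unfold cw wt
  rw [ENNReal.ofReal_prod_of_nonneg fun j _ => kA_nonneg u h (hτ j) _ _ _]
  refine Finset.prod_congr rfl fun j _ => ?_
  congr 2
  refine Fin.lastCases ?_ (fun i => ?_) j
  · rw [Fin.snoc_last, Fin.last_add_one, Fin.cons_zero]
  · rw [Fin.snoc_castSucc, Fin.coeSucc_eq_succ, Fin.cons_succ]

theorem wt_meas {n : ℕ} [NeZero n] (τ : Fin n → ℝ) (A : Fin n → Finset (Fin 3)) :
    Measurable fun x => wt u h τ x A := by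
  unfold wt
  refine Finset.measurable_fun_prod _ fun j _ => ?_
  exact kA_meas_comp u h (A j) measurable_const (measurable_pi_apply j)
    (measurable_pi_apply (j + 1))

open Classical in
/-- module BLV -/
theorem blv : BlvStatement := by
  intro u h _ n hn τ hτ M E _
  obtain ⟨m, rfl⟩ : ∃ m, n = m + 1 := Nat.exists_eq_succ_of_ne_zero (NeZero.ne n)
  have hpos : 0 < ∑ j, τ j := Finset.sum_pos (fun j _ => hτ _) Finset.univ_nonempty
  have e1 : ∀ x, ENNReal.ofReal (kME u h M E (∑ j, τ j) x x)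
      = ∑ A : Fin (m + 1) → Finset (Fin 3), if Vis M E A then
        ∫⁻ z : Fin m → ℂ, cw u h τ A x z x else 0 := by
    intro x
    rw [kME_eq u h, ENNReal.ofReal_sum_of_nonneg fun A _ => kA_nonneg u h hpos x x A]
    simp only [chain u h m τ hτ]
    rw [Finset.sum_comm]
    refine Finset.sum_congr rfl fun A _ => ?_
    rw [Finset.sum_ite_eq]
    exact if_congr (vis_iff M E A).symm rfl rfl
  simp only [e1]
  unfold Ms
  rw [lintegral_finsetSum]
  · refine Finset.sum_congr rfl fun A _ => ?_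
    by_cases hV : Vis M E A
    · simp only [if_pos hV]
      rw [lint_cons (fun x => ENNReal.ofReal (wt u h τ x A))
        (ENNReal.measurable_ofReal.comp (wt_meas u h τ A))]
      exact lintegral_congr fun x => lintegral_congr fun z => cw_cyc u h τ hτ A x z
    · simp only [if_neg hV, lintegral_zero]
  · intro A _
    split_ifs
    · have hm : Measurable fun p : ℂ × (Fin m → ℂ) => cw u h τ A p.1 p.2 p.1 :=
        cw_meas_comp u h τ A measurable_fst measurable_snd measurable_fst
      exact hm.lintegral_prod_right'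
    · exact measurable_const

end Pool.Agent.H60K.H44
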