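import Pool.Agent.Helper60_AEU.Stmt

/-!
Squad AEU, Part III, module TEL: the telescoping identity for cyclic words.
-/

namespace Pool.Agent.H60K.H44

open Pool.Agent.H60K

/-- choice of two letters -/
theorem two_letters : ∀ O S₁ S₂ : Finset (Fin 3), 0 ∉ O → S₁.Nonempty → S₂.Nonempty →
    S₁ ∪ S₂ = O → ∃ s ∈ S₁, ∃ s' ∈ S₂, O ⊆ {s, s'} := by
  decide

open Classical in
/-- the linear form of the telescoping identity -/
theorem tel_nat (n : ℕ) (O : Finset (Fin 3)) (x : ℕ → ℝ) (a : ℕ → Finset (Fin 3))
    (O0 : 0 ∉ O) (On : O.Nonempty)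
    (px : ∀ m, x (m + n) = x m) (pa : ∀ m, a (m + n) = a m)
    (h0 : ∀ m, 0 ∈ a m → x m = 1 ∧ x (m + 1) = 1)
    (hO : ∀ m, ∀ s ∈ O, s ∈ a m → x m = 0 ∧ x (m + 1) = 0)
    (hvis : ∀ s ∈ O, ∃ m, m < n ∧ s ∈ a m)
    (hna : ∀ (m b c d : ℕ) (s s' : Fin 3), 0 < b → b < c → c < d → d < n → s ∈ O → s' ∈ O →
      O ⊆ {s, s'} → 0 ∈ a m → s ∈ a (m + b) → 0 ∈ a (m + c) → s' ∉ a (m + d))
    (hbase : ∃ s ∈ O, s ∈ a 0) (i : ℕ) (hin : i < n) (hi : 0 ∈ a i)
    (hno : ∀ m, 0 < m → m < i → ∀ s ∈ O, s ∉ a m) :
    ∑ m ∈ Finset.range n, (x (m + 1) - x m) *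
      (if ∃ k : ℕ, 0 < k ∧ k < n ∧ 0 ∈ a (m + k) ∧
        ∀ s ∈ O, ∃ l : ℕ, k < l ∧ l < n ∧ s ∈ a (m + l) then 1 else 0) = 1 := by
  have hx01 : ∀ m, 0 ∈ a m → ∀ s ∈ O, s ∉ a m := by
    intro m h1 s hs h2
    have := (h0 m h1).1
    rw [(hO m s hs h2).1] at this
    exact zero_ne_one this
  obtain ⟨s0, hs0, hs0a⟩ := hbase
  have hx0 : x 0 = 0 := (hO 0 s0 hs0 hs0a).1
  have hx1 : x 1 = 0 := (hO 0 s0 hs0 hs0a).2
  have hxn : x n = 0 := by
    have := px 0
    rw [zero_add] at this
    rw [this, hx0]
  have hipos : 0 < i := by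
    rcases Nat.eq_zero_or_pos i with h | h
    · subst h
      exact absurd hs0a (hx01 0 hi s0 hs0)
    · exact h
  -- the last visit of `0`
  obtain ⟨e, he, hmax⟩ : ∃ e, (e < n ∧ 0 ∈ a e) ∧ ∀ m, m < n → 0 ∈ a m → m ≤ e := by
    have hne : ((Finset.range n).filter fun m => 0 ∈ a m).Nonempty :=
      ⟨i, by simp [hin, hi]⟩
    refine ⟨((Finset.range n).filter fun m => 0 ∈ a m).max' hne, ?_, ?_⟩
    · have := Finset.max'_mem _ hne
      rw [Finset.mem_filter, Finset.mem_range] at this
      exact this
    · intro m hm h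
      exact Finset.le_max' _ _ (by simp [hm, h])
  obtain ⟨hen, he0⟩ := he
  have hie : i ≤ e := hmax i hin hi
  -- no letter of `O` before the last visit of `0`
  have hnoO : ∀ m, 0 < m → m < e → ∀ s ∈ O, s ∉ a m := by
    intro m hm hme s hs hsa
    have him : i < m := by
      rcases lt_trichotomy m i with h | h | h
      · exact absurd hsa (hno m hm h s hs)
      · subst h
        exact absurd hsa (hx01 m hi s hs)
      · exact h
    set S₁ : Finset (Fin 3) := O.filter fun t => ∃ l, i < l ∧ l < e ∧ t ∈ a l with hS₁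
    set S₂ : Finset (Fin 3) := O.filter fun t => ∃ l, e < l ∧ l < n + i ∧ t ∈ a l with hS₂
    have e1 : S₁.Nonempty := ⟨s, Finset.mem_filter.mpr ⟨hs, m, him, hme, hsa⟩⟩
    have e2 : S₂.Nonempty := by
      refine ⟨s0, Finset.mem_filter.mpr ⟨hs0, n, hen, by omega, ?_⟩⟩
      have := pa 0
      rw [zero_add] at this
      rw [this]
      exact hs0a
    have e3 : S₁ ∪ S₂ = O := by
      apply Finset.Subset.antisymm
      · exact Finset.union_subset (Finset.filter_subset _ _) (Finset.filter_subset _ _)
      · intro t ht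
        obtain ⟨l, hl, hta⟩ := hvis t ht
        rw [Finset.mem_union]
        have hli : l ≠ i := by
          rintro rfl
          exact hx01 _ hi t ht hta
        have hle : l ≠ e := by
          rintro rfl
          exact hx01 _ he0 t ht hta
        rcases lt_or_gt_of_ne hli with h | h
        · right
          refine Finset.mem_filter.mpr ⟨ht, l + n, by omega, by omega, ?_⟩
          rw [pa]
          exact hta
        · rcases lt_or_gt_of_ne hle with h' | h'
          · left
            exact Finset.mem_filter.mpr ⟨ht, l, h, h', hta⟩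
          · right
            exact Finset.mem_filter.mpr ⟨ht, l, h', by omega, hta⟩
    obtain ⟨t, ht, t', ht', hsub⟩ := two_letters O S₁ S₂ O0 e1 e2 e3
    obtain ⟨htO, l, hl1, hl2, hl3⟩ := Finset.mem_filter.mp ht
    obtain ⟨htO', l', hl1', hl2', hl3'⟩ := Finset.mem_filter.mp ht'
    have := hna i (l - i) (e - i) (l' - i) t t' (by omega) (by omega) (by omega) (by omega) htO
      htO' hsub hi (by rw [Nat.add_sub_cancel' hl1.le]; exact hl3)
      (by rw [Nat.add_sub_cancel' hie]; exact he0)
    rw [Nat.add_sub_cancel' (by omega)] at this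
    exact this hl3'
  -- the indicator after the last visit
  set g : ℕ → ℝ := fun m => if ∀ s ∈ O, ∃ l, e < l ∧ l < m ∧ s ∈ a l then 1 else 0 with hg
  set F : ℕ → Prop := fun m => ∃ k : ℕ, 0 < k ∧ k < n ∧ 0 ∈ a (m + k) ∧
        ∀ s ∈ O, ∃ l : ℕ, k < l ∧ l < n ∧ s ∈ a (m + l) with hF
  have hF1 : ∀ m, 0 < m → m < e → F m := by
    intro m hm hme
    refine ⟨e - m, by omega, by omega, by rw [Nat.add_sub_cancel' hme.le]; exact he0, ?_⟩
    intro s hs
    obtain ⟨l, hl, hsl⟩ := hvis s hs
    rcases Nat.eq_zero_or_pos l with h | h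
    · refine ⟨n - m, by omega, by omega, ?_⟩
      rw [Nat.add_sub_cancel' (by omega)]
      have := pa 0
      rw [zero_add] at this
      rw [this, ← h]
      exact hsl
    · have hle : e < l := by
        rcases lt_trichotomy l e with h' | h' | h'
        · exact absurd hsl (hnoO l h h' s hs)
        · rw [h'] at hsl
          exact absurd hsl (hx01 e he0 s hs)
        · exact h'
      refine ⟨l - m, by omega, by omega, ?_⟩
      rw [Nat.add_sub_cancel' (by omega)]
      exact hsl
  have hF2 : ∀ m, e < m → m < n → (F m ↔ ∀ s ∈ O, ∃ l, e < l ∧ l < m ∧ s ∈ a l) := by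
    intro m hem hmn
    constructor
    · rintro ⟨k, hk0, hkn, hk, hall⟩ s hs
      -- the visit of `0` at `m + k` is at or after `n`
      have hmk : n ≤ m + k := by
        by_contra hc
        push Not at hc
        have := hmax (m + k) hc hk
        omega
      have hk' : 0 ∈ a (m + k - n) := by
        have := pa (m + k - n)
        rw [Nat.sub_add_cancel hmk] at this
        rw [← this]
        exact hk
      have hpos : 0 < m + k - n := by
        rcases Nat.eq_zero_or_pos (m + k - n) with h | h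
        · rw [h] at hk'
          exact absurd hs0a (hx01 0 hk' s0 hs0)
        · exact h
      obtain ⟨l, hkl, hln, hsl⟩ := hall s hs
      have hsl' : s ∈ a (m + l - n) := by
        have := pa (m + l - n)
        rw [Nat.sub_add_cancel (by omega)] at this
        rw [← this]
        exact hsl
      refine ⟨m + l - n, ?_, by omega, hsl'⟩
      rcases lt_trichotomy (m + l - n) e with h' | h' | h'
      · exact absurd hsl' (hnoO _ (by omega) h' s hs)
      · rw [h'] at hsl'
        exact absurd hsl' (hx01 e he0 s hs)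
      · exact h'
    · intro hall
      refine ⟨n + e - m, by omega, by omega, ?_, ?_⟩
      · have h1 : m + (n + e - m) = e + n := by omega
        rw [h1, pa]
        exact he0
      · intro s hs
        obtain ⟨l, hl1, hl2, hsl⟩ := hall s hs
        refine ⟨n + l - m, by omega, by omega, ?_⟩
        have h1 : m + (n + l - m) = l + n := by omega
        rw [h1, pa]
        exact hsl
  have hind : ∀ M, e + 1 ≤ M → M ≤ n →
      ∑ m ∈ Finset.Ico (e + 1) M, (x (m + 1) - x m) * (if F m then (1 : ℝ) else 0)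
        = x M * g M := by
    intro M hM
    induction M, hM using Nat.le_induction with
    | base =>
      intro _
      have : g (e + 1) = 0 := by
        simp only [hg]
        rw [if_neg]
        intro hc
        obtain ⟨s, hs⟩ := On
        obtain ⟨l, h1, h2, -⟩ := hc s hs
        omega
      rw [this, mul_zero, Finset.Ico_self, Finset.sum_empty]
    | succ M hM ih =>
      intro hMn
      rw [Finset.sum_Ico_succ_top hM, ih (by omega)]
      have e1 : (if F M then (1 : ℝ) else 0) = g M := by
        simp only [hg]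
        exact if_congr (hF2 M (by omega) (by omega)) rfl rfl
      rw [e1]
      have e2 : x (M + 1) * g M = x (M + 1) * g (M + 1) := by
        by_cases hc : ∃ s ∈ O, s ∈ a M
        · obtain ⟨s, hs, hsa⟩ := hc
          rw [(hO M s hs hsa).2, zero_mul, zero_mul]
        · push Not at hc
          congr 1
          simp only [hg]
          refine if_congr ⟨fun h s hs => ?_, fun h s hs => ?_⟩ rfl rfl
          · obtain ⟨l, h1, h2, h3⟩ := h s hs
            exact ⟨l, h1, by omega, h3⟩
          · obtain ⟨l, h1, h2, h3⟩ := h s hs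
            refine ⟨l, h1, ?_, h3⟩
            rcases Nat.lt_succ_iff_lt_or_eq.mp h2 with h | h
            · exact h
            · rw [h] at h3
              exact absurd h3 (hc s hs)
      linear_combination e2
  have htail := hind n (by omega) le_rfl
  rw [hxn, zero_mul] at htail
  have hhead : ∑ m ∈ Finset.range (e + 1), (x (m + 1) - x m) * (if F m then (1 : ℝ) else 0)
      = 1 := by
    have : ∀ m ∈ Finset.range (e + 1), (x (m + 1) - x m) * (if F m then (1 : ℝ) else 0)
        = x (m + 1) - x m := by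
      intro m hm
      rw [Finset.mem_range] at hm
      rcases Nat.eq_zero_or_pos m with h | h
      · subst h
        rw [zero_add, hx0, hx1, sub_zero, zero_mul]
      · rcases Nat.lt_succ_iff_lt_or_eq.mp hm with h' | h'
        · rw [if_pos (hF1 m h h'), mul_one]
        · rw [h', (h0 e he0).1, (h0 e he0).2, sub_self, zero_mul]
    rw [Finset.sum_congr rfl this, Finset.sum_range_sub, hx0, (h0 e he0).2, sub_zero]
  have hsplit := Finset.sum_range_add_sum_Ico
    (fun m => (x (m + 1) - x m) * (if F m then (1 : ℝ) else 0)) (show e + 1 ≤ n by omega)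
  rw [hhead, htail, add_zero] at hsplit
  exact hsplit.symm

theorem ofNat_add' (n : ℕ) [NeZero n] (a b : ℕ) :
    Fin.ofNat n (a + b) = Fin.ofNat n a + Fin.ofNat n b := by
  ext
  simp [Fin.val_add]

theorem ofNat_self' (n : ℕ) [NeZero n] : Fin.ofNat n n = 0 := by
  ext
  simp

theorem ofNat_one' (n : ℕ) [NeZero n] : Fin.ofNat n 1 = 1 := by
  ext
  simp

theorem ofNat_val' (n : ℕ) [NeZero n] (j : Fin n) : Fin.ofNat n (j : ℕ) = j := by
  ext
  simp

/-- a sum over `Fin n` in rotated coordinates -/
theorem sum_rot (n : ℕ) [NeZero n] (f : Fin n → ℝ) (j0 : Fin n) :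
    ∑ j, f j = ∑ m ∈ Finset.range n, f (j0 + Fin.ofNat n m) := by
  rw [← Fin.sum_univ_eq_sum_range (fun m => f (j0 + Fin.ofNat n m)) n,
    ← Equiv.sum_comp (Equiv.addLeft j0) f]
  refine Finset.sum_congr rfl fun j _ => ?_
  rw [ofNat_val']
  rfl

open Classical in
/-- module TEL -/
theorem tel : TelStatement := by
  intro n _ O χ A O0 On h0 hO hvis hna
  obtain ⟨q, hq⟩ := hvis.1 0 (Finset.mem_insert_self _ _)
  have hx01 : ∀ s ∈ O, s ∉ A q := by
    intro s hs h2
    have := (h0 q hq).1
    rw [(hO q s hs h2).1] at this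
    exact zero_ne_one this
  have hex : ∃ i, 0 < i ∧ ∃ s ∈ O, s ∈ A (q - Fin.ofNat n i) := by
    obtain ⟨s, hs⟩ := On
    obtain ⟨j, hj⟩ := hvis.1 s (Finset.mem_insert_of_mem hs)
    refine ⟨(q - j).val, ?_, s, hs, ?_⟩
    · rcases Nat.eq_zero_or_pos (q - j).val with h | h
      · have h1 : q - j = 0 := Fin.ext (by simpa using h)
        rw [sub_eq_zero.mp h1] at hx01
        exact absurd hj (hx01 s hs)
      · exact h
    · rw [ofNat_val', sub_sub_cancel]
      exact hj
  have hex' : ∃ i, (0 < i ∧ ∃ s ∈ O, s ∈ A (q - Fin.ofNat n i)) ∧ i < n ∧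
      ∀ m, 0 < m → m < i → ∀ s ∈ O, s ∉ A (q - Fin.ofNat n m) := by
    refine ⟨Nat.find hex, Nat.find_spec hex, ?_, ?_⟩
    · obtain ⟨s, hs⟩ := On
      obtain ⟨j, hj⟩ := hvis.1 s (Finset.mem_insert_of_mem hs)
      refine lt_of_le_of_lt (Nat.find_min' hex (m := (q - j).val) ⟨?_, s, hs, ?_⟩)
        (q - j).isLt
      · rcases Nat.eq_zero_or_pos (q - j).val with h | h
        · have h1 : q - j = 0 := Fin.ext (by simpa using h)
          rw [sub_eq_zero.mp h1] at hx01
          exact absurd hj (hx01 s hs)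
        · exact h
      · rw [ofNat_val', sub_sub_cancel]
        exact hj
    · intro m hm hmi s hs hsa
      exact Nat.find_min hex hmi ⟨hm, s, hs, hsa⟩
  obtain ⟨i, ⟨-, hi⟩, hin, hmin⟩ := hex'
  set j0 : Fin n := q - Fin.ofNat n i with hj0
  rw [sum_rot n _ j0]
  have key := tel_nat n O (fun m => χ (j0 + Fin.ofNat n m)) (fun m => A (j0 + Fin.ofNat n m))
    O0 On (fun m => by simp only [ofNat_add', ofNat_self', add_zero])
    (fun m => by simp only [ofNat_add', ofNat_self', add_zero])
    (fun m hm => by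
      have := h0 _ hm
      simp only [ofNat_add', ofNat_one', ← add_assoc]
      exact this)
    (fun m s hs hm => by
      have := hO _ s hs hm
      simp only [ofNat_add', ofNat_one', ← add_assoc]
      exact this)
    (fun s hs => by
      obtain ⟨j, hj⟩ := hvis.1 s (Finset.mem_insert_of_mem hs)
      refine ⟨(j - j0).val, (j - j0).isLt, ?_⟩
      show s ∈ A (j0 + Fin.ofNat n (j - j0).val)
      rw [ofNat_val', add_sub_cancel]
      exact hj)
    (fun m b c d s s' hb hbc hcd hdn hs hs' hsub hm hmb hmc => by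
      have := hna (j0 + Fin.ofNat n m) b c d s s' hb hbc hcd hdn hs hs' hsub hm
      simp only [ofNat_add', ← add_assoc] at hmb hmc ⊢
      exact this hmb hmc)
    (by
      obtain ⟨s, hs, hsa⟩ := hi
      refine ⟨s, hs, ?_⟩
      show s ∈ A (j0 + Fin.ofNat n 0)
      have : Fin.ofNat n 0 = 0 := by ext; simp
      rw [this, add_zero]
      exact hsa)
    i hin (by
      show 0 ∈ A (j0 + Fin.ofNat n i)
      rw [hj0, sub_add_cancel]
      exact hq)
    (fun m hm hmi s hs => by
      have := hmin (i - m) (by omega) (by omega) s hs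
      show s ∉ A (j0 + Fin.ofNat n m)
      have e : Fin.ofNat n i = Fin.ofNat n (i - m) + Fin.ofNat n m := by
        rw [← ofNat_add', Nat.sub_add_cancel hmi.le]
      rw [hj0, e, sub_add_eq_sub_sub, sub_add_cancel]
      exact this)
  refine Eq.trans (Finset.sum_congr rfl fun m _ => ?_) key
  congr 1
  · simp only [ofNat_add', ofNat_one', ← add_assoc]
  · refine if_congr ?_ rfl rfl
    unfold Fj
    simp only [ofNat_add', ← add_assoc]

end Pool.Agent.H60K.H44
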